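import Pool.Agent.R697.LD.Conj

/-!
# Automorphisms near the identity

`E` is a finite-dimensional real normed space with a bilinear product `m` and an operator `J`
(which will be multiplication by `i` for complex algebras, and `0` for real algebras). `Der m J` is
the space of the derivations commuting with `J`, `IsAut m J` the set of the automorphisms commuting
with `J`.
-/

set_option autoImplicit false

namespace Pool.Agent.R697.LD

open NormedSpace Filter Topology Set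

universe u

variable {E : Type u} [NormedAddCommGroup E] [NormedSpace ℝ E]

/-- The derivations commuting with `J`. -/
def Der (m : E →L[ℝ] E →L[ℝ] E) (J : E →L[ℝ] E) : Submodule ℝ (E →L[ℝ] E) where
  carrier := {D | (∀ x y, D (m x y) = m (D x) y + m x (D y)) ∧ ∀ x, D (J x) = J (D x)}
  add_mem' := by
    rintro D F ⟨h1, h2⟩ ⟨h3, h4⟩
    refine ⟨fun x y => ?_, fun x => ?_⟩
    · simp only [add_apply, map_add, h1, h3]
      abel
    · simp only [add_apply, map_add, h2, h4]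
  zero_mem' := ⟨fun x y => by simp, fun x => by simp⟩
  smul_mem' := by
    rintro c D ⟨h1, h2⟩
    refine ⟨fun x y => ?_, fun x => ?_⟩
    · simp only [smul_apply, map_smul, h1, smul_add]
    · simp only [smul_apply, map_smul, h2]

/-- The automorphisms commuting with `J`. -/
structure IsAut (m : E →L[ℝ] E →L[ℝ] E) (J : E →L[ℝ] E) (h : E →L[ℝ] E) : Prop where
  unit : IsUnit h
  mul : ∀ x y, h (m x y) = m (h x) (h y)
  comm : ∀ x, h (J x) = J (h x)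

variable {m : E →L[ℝ] E →L[ℝ] E} {J : E →L[ℝ] E}

theorem IsAut.one : IsAut m J 1 := ⟨isUnit_one, fun _ _ => rfl, fun _ => rfl⟩

theorem IsAut.mul' {g h : E →L[ℝ] E} (hg : IsAut m J g) (hh : IsAut m J h) :
    IsAut m J (g * h) := by
  refine ⟨hg.unit.mul hh.unit, fun x y => ?_, fun x => ?_⟩
  · show g (h (m x y)) = m (g (h x)) (g (h y))
    rw [hh.mul, hg.mul]
  · show g (h (J x)) = J (g (h x))
    rw [hh.comm, hg.comm]

theorem IsAut.of_inv {g h : E →L[ℝ] E} (hh : IsAut m J h) (h1 : g * h = 1) (h2 : h * g = 1) :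
    IsAut m J g := by
  have e1 : ∀ x, g (h x) = x := fun x => congrArg (fun f : E →L[ℝ] E => f x) h1
  have e2 : ∀ x, h (g x) = x := fun x => congrArg (fun f : E →L[ℝ] E => f x) h2
  refine ⟨⟨⟨g, h, h1, h2⟩, rfl⟩, fun x y => ?_, fun x => ?_⟩
  · calc g (m x y) = g (m (h (g x)) (h (g y))) := by rw [e2, e2]
      _ = g (h (m (g x) (g y))) := by rw [hh.mul]
      _ = m (g x) (g y) := e1 _
  · calc g (J x) = g (J (h (g x))) := by rw [e2]
      _ = g (h (J (g x))) := by rw [hh.comm]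
      _ = J (g x) := e1 _

theorem IsAut.exists_inv {h : E →L[ℝ] E} (hh : IsAut m J h) :
    ∃ g, g * h = 1 ∧ h * g = 1 ∧ IsAut m J g := by
  obtain ⟨u, rfl⟩ := hh.unit
  exact ⟨(u⁻¹ : (E →L[ℝ] E)ˣ), u.inv_mul, u.mul_inv, hh.of_inv u.inv_mul u.mul_inv⟩

/-- Conjugating a derivation by an automorphism. -/
theorem conj_der {g h D : E →L[ℝ] E} (hh : IsAut m J h) (h1 : g * h = 1) (h2 : h * g = 1)
    (hD : D ∈ Der m J) : g * D * h ∈ Der m J := by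
  have hg := hh.of_inv h1 h2
  have e1 : ∀ x, g (h x) = x := fun x => congrArg (fun f : E →L[ℝ] E => f x) h1
  refine ⟨fun x y => ?_, fun x => ?_⟩
  · show g (D (h (m x y))) = m (g (D (h x))) y + m x (g (D (h y)))
    rw [hh.mul, hD.1, map_add, hg.mul, hg.mul, e1, e1]
  · show g (D (h (J x))) = J (g (D (h x)))
    rw [hh.comm, hD.2, hg.comm]

/-- The values of the derivations at `h x`, `h` an automorphism. -/
theorem mem_val_aut {h : E →L[ℝ] E} (hh : IsAut m J h) (x y : E) :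
    h y ∈ val (Der m J) (h x) ↔ y ∈ val (Der m J) x := by
  obtain ⟨g, h1, h2, hg⟩ := hh.exists_inv
  have e1 : ∀ x, g (h x) = x := fun x => congrArg (fun f : E →L[ℝ] E => f x) h1
  have e2 : ∀ x, h (g x) = x := fun x => congrArg (fun f : E →L[ℝ] E => f x) h2
  rw [mem_val, mem_val]
  constructor
  · rintro ⟨D, hD, e⟩
    refine ⟨g * D * h, conj_der hh h1 h2 hD, ?_⟩
    show g (D (h x)) = y
    rw [e, e1]
  · rintro ⟨D, hD, e⟩
    refine ⟨h * D * g, conj_der hg h2 h1 hD, ?_⟩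
    show h (D (g (h x))) = h y
    rw [e1, e]

section Complete

variable [CompleteSpace E]

theorem exists_exp {ε : ℝ} (hε : 0 < ε) :
    ∃ δ > 0, ∀ h : E →L[ℝ] E, ‖h - 1‖ < δ → ∃ ξ : E →L[ℝ] E, ‖ξ‖ < ε ∧ exp ξ = h := by
  have h0 : HasStrictFDerivAt (exp : (E →L[ℝ] E) → (E →L[ℝ] E))
      (1 : (E →L[ℝ] E) →L[ℝ] (E →L[ℝ] E)) 0 := hasStrictFDerivAt_exp_zero
  have h1 : (1 : (E →L[ℝ] E) →L[ℝ] (E →L[ℝ] E)).range = ⊤ := by
    rw [LinearMap.range_eq_top]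
    exact fun x => ⟨x, rfl⟩
  have h2 := h0.map_nhds_eq_of_surj h1
  rw [exp_zero] at h2
  have h3 : exp '' (Metric.ball (0 : E →L[ℝ] E) ε) ∈ 𝓝 (1 : E →L[ℝ] E) := by
    rw [← h2]
    exact image_mem_map (Metric.ball_mem_nhds _ hε)
  obtain ⟨δ, hδ, hs⟩ := Metric.mem_nhds_iff.1 h3
  refine ⟨δ, hδ, fun h hh => ?_⟩
  obtain ⟨ξ, hξ, e⟩ := hs (by rwa [Metric.mem_ball, dist_eq_norm])
  exact ⟨ξ, by simpa using hξ, e⟩

theorem exists_norm_exp_sub_one {ε : ℝ} (hε : 0 < ε) :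
    ∃ δ > 0, ∀ ξ : E →L[ℝ] E, ‖ξ‖ < δ → ‖exp ξ - 1‖ < ε := by
  have h0 : HasStrictFDerivAt (exp : (E →L[ℝ] E) → (E →L[ℝ] E))
      (1 : (E →L[ℝ] E) →L[ℝ] (E →L[ℝ] E)) 0 := hasStrictFDerivAt_exp_zero
  have h1 := h0.continuousAt
  rw [Metric.continuousAt_iff] at h1
  obtain ⟨δ, hδ, h⟩ := h1 ε hε
  refine ⟨δ, hδ, fun ξ hξ => ?_⟩
  have := h (x := ξ) (by simpa using hξ)
  rwa [exp_zero, dist_eq_norm] at this

/-- The defect of `ξ` from being a derivation. -/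
noncomputable def defect (m : E →L[ℝ] E →L[ℝ] E) (ξ : E →L[ℝ] E) : E →L[ℝ] E →L[ℝ] E :=
  (ContinuousLinearMap.compL ℝ E E E ξ).comp m - m.comp ξ -
    ((ContinuousLinearMap.compL ℝ E E E).flip ξ).comp m

omit [CompleteSpace E] in
theorem defect_apply (ξ : E →L[ℝ] E) (x y : E) :
    defect m ξ x y = ξ (m x y) - m (ξ x) y - m x (ξ y) := rfl

theorem exp_smul_apply_deriv (ξ : E →L[ℝ] E) (x : E) (t : ℝ) :
    HasDerivAt (fun t : ℝ => exp (t • ξ) x) (exp (t • ξ) (ξ x)) t := by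
  have h := (hasDerivAt_exp_smul_const (𝕂 := ℝ) ξ t).clm_apply (hasDerivAt_const t x)
  refine h.congr_deriv ?_
  rw [map_zero, add_zero]
  rfl

theorem exp_neg_smul_apply_deriv (ξ : E →L[ℝ] E) (x : E) (t : ℝ) :
    HasDerivAt (fun t : ℝ => exp (-(t • ξ)) x) (-(exp (-(t • ξ)) (ξ x))) t := by
  have h := (hasDerivAt_e' ξ t).clm_apply (hasDerivAt_const t x)
  refine h.congr_deriv ?_
  rw [map_zero, add_zero]
  rfl

omit [CompleteSpace E] in
theorem exp_smul_comm (ξ : E →L[ℝ] E) (x : E) (t : ℝ) :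
    exp (t • ξ) (ξ x) = ξ (exp (t • ξ) x) := by
  have : exp (t • ξ) * ξ = ξ * exp (t • ξ) :=
    (((Commute.refl ξ).smul_right t).exp_right.eq).symm
  exact congrArg (fun f : E →L[ℝ] E => f x) this

omit [CompleteSpace E] in
theorem exp_neg_smul_comm (ξ : E →L[ℝ] E) (x : E) (t : ℝ) :
    exp (-(t • ξ)) (ξ x) = ξ (exp (-(t • ξ)) x) := by
  have : exp (-(t • ξ)) * ξ = ξ * exp (-(t • ξ)) :=
    (((Commute.refl ξ).smul_right t).neg_right.exp_right.eq).symm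
  exact congrArg (fun f : E →L[ℝ] E => f x) this

theorem exp_neg_exp_apply (ξ : E →L[ℝ] E) (x : E) : exp (-ξ) (exp ξ x) = x :=
  congrArg (fun f : E →L[ℝ] E => f x) (exp_neg_mul_exp ξ)

theorem exp_exp_neg_apply (ξ : E →L[ℝ] E) (x : E) : exp ξ (exp (-ξ) x) = x :=
  congrArg (fun f : E →L[ℝ] E => f x) (exp_mul_exp_neg ξ)

/-- The derivative of `t ↦ exp(tξ) m(exp(-tξ) x, exp(-tξ) y)`. -/
theorem transport_deriv (ξ : E →L[ℝ] E) (x y : E) (t : ℝ) :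
    HasDerivAt (fun t : ℝ => exp (t • ξ) (m (exp (-(t • ξ)) x) (exp (-(t • ξ)) y)))
      (exp (t • ξ) (defect m ξ (exp (-(t • ξ)) x) (exp (-(t • ξ)) y))) t := by
  have h1 : HasDerivAt (fun t : ℝ => m (exp (-(t • ξ)) x))
      (m (-(exp (-(t • ξ)) (ξ x)))) t :=
    m.hasFDerivAt.comp_hasDerivAt t (exp_neg_smul_apply_deriv ξ x t)
  have h2 := h1.clm_apply (exp_neg_smul_apply_deriv ξ y t)
  have h3 := (hasDerivAt_exp_smul_const (𝕂 := ℝ) ξ t).clm_apply h2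
  refine h3.congr_deriv ?_
  rw [defect_apply, exp_neg_smul_comm, exp_neg_smul_comm]
  show exp (t • ξ) (ξ _) + exp (t • ξ) _ = _
  rw [← map_add]
  congr 1
  simp only [map_neg, neg_apply]
  abel

omit [CompleteSpace E] in
/-- A bound for a bilinear map transported by operators near the identity. -/
theorem transport_bound (B : E →L[ℝ] E →L[ℝ] E) {f g : E →L[ℝ] E} (hf : ‖f - 1‖ ≤ 1 / 10)
    (hg : ‖g - 1‖ ≤ 1 / 10) (x y : E) :
    ‖f (B (g x) (g y)) - B x y‖ ≤ 1 / 2 * ‖B‖ * ‖x‖ * ‖y‖ := by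
  have e : f (B (g x) (g y)) - B x y = (f - 1) (B (g x) (g y)) + B ((g - 1) x) (g y) +
      B x ((g - 1) y) := by
    simp only [sub_apply, map_sub, one_apply_eq_self]
    abel
  have hgx : ∀ z : E, ‖g z‖ ≤ 11 / 10 * ‖z‖ := by
    intro z
    have : g z = (g - 1) z + z := by
      simp
    rw [this]
    calc ‖(g - 1) z + z‖ ≤ ‖(g - 1) z‖ + ‖z‖ := norm_add_le _ _
      _ ≤ ‖g - 1‖ * ‖z‖ + ‖z‖ := by gcongr; exact (g - 1).le_opNorm z
      _ ≤ 1 / 10 * ‖z‖ + ‖z‖ := by gcongr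
      _ = 11 / 10 * ‖z‖ := by ring
  have hg1 : ∀ z : E, ‖(g - 1) z‖ ≤ 1 / 10 * ‖z‖ := fun z =>
    ((g - 1).le_opNorm z).trans (by gcongr)
  have hB : ∀ a b : E, ‖B a b‖ ≤ ‖B‖ * ‖a‖ * ‖b‖ := fun a b => B.le_opNorm₂ a b
  rw [e]
  have t1 : ‖(f - 1) (B (g x) (g y))‖ ≤ 1 / 10 * (‖B‖ * (11 / 10 * ‖x‖) * (11 / 10 * ‖y‖)) := by
    calc ‖(f - 1) (B (g x) (g y))‖ ≤ ‖f - 1‖ * ‖B (g x) (g y)‖ := (f - 1).le_opNorm _
      _ ≤ 1 / 10 * (‖B‖ * ‖g x‖ * ‖g y‖) := by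
        gcongr
        exact hB _ _
      _ ≤ 1 / 10 * (‖B‖ * (11 / 10 * ‖x‖) * (11 / 10 * ‖y‖)) := by
        gcongr
        · exact hgx x
        · exact hgx y
  have t2 : ‖B ((g - 1) x) (g y)‖ ≤ ‖B‖ * (1 / 10 * ‖x‖) * (11 / 10 * ‖y‖) := by
    refine (hB _ _).trans ?_
    gcongr
    · exact hg1 x
    · exact hgx y
  have t3 : ‖B x ((g - 1) y)‖ ≤ ‖B‖ * ‖x‖ * (1 / 10 * ‖y‖) := by
    refine (hB _ _).trans ?_
    gcongr
    exact hg1 y
  calc _ ≤ ‖(f - 1) (B (g x) (g y))‖ + ‖B ((g - 1) x) (g y)‖ + ‖B x ((g - 1) y)‖ :=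
        norm_add₃_le
    _ ≤ 1 / 10 * (‖B‖ * (11 / 10 * ‖x‖) * (11 / 10 * ‖y‖)) +
        ‖B‖ * (1 / 10 * ‖x‖) * (11 / 10 * ‖y‖) + ‖B‖ * ‖x‖ * (1 / 10 * ‖y‖) := by
        gcongr
    _ = (121 / 1000 + 11 / 100 + 1 / 10) * (‖B‖ * ‖x‖ * ‖y‖) := by ring
    _ ≤ 1 / 2 * (‖B‖ * ‖x‖ * ‖y‖) := by
        gcongr
        norm_num
    _ = _ := by ring

/-- The derivative of `t ↦ exp(tξ) J exp(-tξ) x`. -/
theorem transport_deriv' (ξ : E →L[ℝ] E) (x : E) (t : ℝ) :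
    HasDerivAt (fun t : ℝ => exp (t • ξ) (J (exp (-(t • ξ)) x)))
      (exp (t • ξ) ((ξ * J - J * ξ) (exp (-(t • ξ)) x))) t := by
  have h1 : HasDerivAt (fun t : ℝ => J (exp (-(t • ξ)) x))
      (J (-(exp (-(t • ξ)) (ξ x)))) t :=
    J.hasFDerivAt.comp_hasDerivAt t (exp_neg_smul_apply_deriv ξ x t)
  have h3 := (hasDerivAt_exp_smul_const (𝕂 := ℝ) ξ t).clm_apply h1
  refine h3.congr_deriv ?_
  rw [exp_neg_smul_comm]
  show exp (t • ξ) (ξ _) + exp (t • ξ) _ = exp (t • ξ) (ξ (J _) - J (ξ _))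
  rw [← map_add]
  congr 1
  simp only [map_neg]
  abel

omit [CompleteSpace E] in
theorem transport_bound' (B : E →L[ℝ] E) {f g : E →L[ℝ] E} (hf : ‖f - 1‖ ≤ 1 / 10)
    (hg : ‖g - 1‖ ≤ 1 / 10) (x : E) : ‖f (B (g x)) - B x‖ ≤ 1 / 2 * ‖B‖ * ‖x‖ := by
  have e : f (B (g x)) - B x = (f - 1) (B (g x)) + B ((g - 1) x) := by
    simp only [sub_apply, map_sub, one_apply_eq_self]
    abel
  have hgx : ∀ z : E, ‖g z‖ ≤ 11 / 10 * ‖z‖ := by
    intro z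
    have : g z = (g - 1) z + z := by
      simp
    rw [this]
    calc ‖(g - 1) z + z‖ ≤ ‖(g - 1) z‖ + ‖z‖ := norm_add_le _ _
      _ ≤ ‖g - 1‖ * ‖z‖ + ‖z‖ := by gcongr; exact (g - 1).le_opNorm z
      _ ≤ 1 / 10 * ‖z‖ + ‖z‖ := by gcongr
      _ = 11 / 10 * ‖z‖ := by ring
  have hg1 : ∀ z : E, ‖(g - 1) z‖ ≤ 1 / 10 * ‖z‖ := fun z =>
    ((g - 1).le_opNorm z).trans (by gcongr)
  rw [e]
  have t1 : ‖(f - 1) (B (g x))‖ ≤ 1 / 10 * (‖B‖ * (11 / 10 * ‖x‖)) := by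
    calc ‖(f - 1) (B (g x))‖ ≤ ‖f - 1‖ * ‖B (g x)‖ := (f - 1).le_opNorm _
      _ ≤ 1 / 10 * (‖B‖ * ‖g x‖) := by
        gcongr
        exact B.le_opNorm _
      _ ≤ 1 / 10 * (‖B‖ * (11 / 10 * ‖x‖)) := by
        gcongr
        exact hgx x
  have t2 : ‖B ((g - 1) x)‖ ≤ ‖B‖ * (1 / 10 * ‖x‖) := by
    refine (B.le_opNorm _).trans ?_
    gcongr
    exact hg1 x
  calc _ ≤ ‖(f - 1) (B (g x))‖ + ‖B ((g - 1) x)‖ := norm_add_le _ _
    _ ≤ 1 / 10 * (‖B‖ * (11 / 10 * ‖x‖)) + ‖B‖ * (1 / 10 * ‖x‖) := by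
        gcongr
    _ = (11 / 100 + 1 / 10) * (‖B‖ * ‖x‖) := by ring
    _ ≤ 1 / 2 * (‖B‖ * ‖x‖) := by
        gcongr
        norm_num
    _ = _ := by ring

/-- The logarithm of an automorphism near the identity is a derivation. -/
theorem exists_der_of_exp (m : E →L[ℝ] E →L[ℝ] E) (J : E →L[ℝ] E) :
    ∃ δ > 0, ∀ ξ : E →L[ℝ] E, ‖ξ‖ < δ → IsAut m J (exp ξ) → ξ ∈ Der m J := by
  obtain ⟨δ, hδ, h⟩ := exists_norm_exp_sub_one (E := E) (ε := 1 / 10) (by norm_num)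
  refine ⟨δ, hδ, fun ξ hξ hA => ?_⟩
  have hsm : ∀ t ∈ Ico (0 : ℝ) 1, ‖exp (t • ξ) - 1‖ ≤ 1 / 10 ∧ ‖exp (-(t • ξ)) - 1‖ ≤ 1 / 10 := by
    intro t ht
    have hn : ‖t • ξ‖ < δ := by
      rw [norm_smul, Real.norm_eq_abs, abs_of_nonneg ht.1]
      calc t * ‖ξ‖ ≤ 1 * ‖ξ‖ := by
            gcongr
            exact ht.2.le
        _ < δ := by rwa [one_mul]
    exact ⟨(h _ hn).le, (h _ (by rwa [norm_neg])).le⟩
  have hinv : ∀ x, exp ξ (exp (-ξ) x) = x := exp_exp_neg_apply ξ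
  constructor
  · have key : ∀ x y, ‖defect m ξ x y‖ ≤ 1 / 2 * ‖defect m ξ‖ * ‖x‖ * ‖y‖ := by
      intro x y
      have hd : ∀ t ∈ Icc (0 : ℝ) 1, HasDerivWithinAt (fun t : ℝ =>
          exp (t • ξ) (m (exp (-(t • ξ)) x) (exp (-(t • ξ)) y)) - t • defect m ξ x y)
          (exp (t • ξ) (defect m ξ (exp (-(t • ξ)) x) (exp (-(t • ξ)) y)) - defect m ξ x y)
          (Icc 0 1) t := by
        intro t _
        refine HasDerivAt.hasDerivWithinAt ?_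
        have h2 : HasDerivAt (fun t : ℝ => t • defect m ξ x y) (defect m ξ x y) t := by
          simpa using (hasDerivAt_id t).smul_const (defect m ξ x y)
        exact (transport_deriv ξ x y t).sub h2
      have hb := norm_image_sub_le_of_norm_deriv_le_segment_01' hd
        (C := 1 / 2 * ‖defect m ξ‖ * ‖x‖ * ‖y‖)
        (fun t ht => transport_bound _ (hsm t ht).1 (hsm t ht).2 x y)
      simp only [one_smul, zero_smul, neg_zero, exp_zero, one_apply_eq_self, sub_zero] at hb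
      rw [hA.mul, hinv, hinv] at hb
      have e : m x y - defect m ξ x y - m x y = - defect m ξ x y := by abel
      rwa [e, norm_neg] at hb
    have h0 : ‖defect m ξ‖ ≤ 1 / 2 * ‖defect m ξ‖ :=
      ContinuousLinearMap.opNorm_le_bound₂ _ (by positivity) key
    have h1' : ‖defect m ξ‖ ≤ 0 := by linarith
    have h1 : defect m ξ = 0 := by
      ext x y
      have h2 := key x y
      have h3 : ‖defect m ξ‖ * (‖x‖ * ‖y‖) ≤ 0 :=
        mul_nonpos_of_nonpos_of_nonneg h1' (mul_nonneg (norm_nonneg x) (norm_nonneg y))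
      have h4 : 1 / 2 * ‖defect m ξ‖ * ‖x‖ * ‖y‖ = 1 / 2 * (‖defect m ξ‖ * (‖x‖ * ‖y‖)) := by ring
      have h5 : ‖defect m ξ x y‖ ≤ 0 := by
        rw [h4] at h2
        linarith
      exact norm_le_zero_iff.1 h5
    intro x y
    have := defect_apply (m := m) ξ x y
    rw [h1] at this
    have h2 : (0 : E) = ξ (m x y) - m (ξ x) y - m x (ξ y) := this
    rw [sub_sub, eq_comm, sub_eq_zero] at h2
    exact h2
  · have key : ∀ x, ‖(ξ * J - J * ξ) x‖ ≤ 1 / 2 * ‖ξ * J - J * ξ‖ * ‖x‖ := by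
      intro x
      have hd : ∀ t ∈ Icc (0 : ℝ) 1, HasDerivWithinAt (fun t : ℝ =>
          exp (t • ξ) (J (exp (-(t • ξ)) x)) - t • (ξ * J - J * ξ) x)
          (exp (t • ξ) ((ξ * J - J * ξ) (exp (-(t • ξ)) x)) - (ξ * J - J * ξ) x)
          (Icc 0 1) t := by
        intro t _
        refine HasDerivAt.hasDerivWithinAt ?_
        have h2 : HasDerivAt (fun t : ℝ => t • (ξ * J - J * ξ) x) ((ξ * J - J * ξ) x) t := by
          simpa using (hasDerivAt_id t).smul_const ((ξ * J - J * ξ) x)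
        exact (transport_deriv' ξ x t).sub h2
      have hb := norm_image_sub_le_of_norm_deriv_le_segment_01' hd
        (C := 1 / 2 * ‖ξ * J - J * ξ‖ * ‖x‖)
        (fun t ht => transport_bound' _ (hsm t ht).1 (hsm t ht).2 x)
      simp only [one_smul, zero_smul, neg_zero, exp_zero, one_apply_eq_self, sub_zero] at hb
      rw [hA.comm, hinv] at hb
      have e : J x - (ξ * J - J * ξ) x - J x = - (ξ * J - J * ξ) x := by
        abel
      rwa [e, norm_neg] at hb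
    have h0 : ‖ξ * J - J * ξ‖ ≤ 1 / 2 * ‖ξ * J - J * ξ‖ :=
      ContinuousLinearMap.opNorm_le_bound _ (by positivity) key
    have h1 : ξ * J - J * ξ = 0 := norm_le_zero_iff.1 (by linarith)
    intro x
    have h2 : ξ (J x) - J (ξ x) = 0 := congrArg (fun f : E →L[ℝ] E => f x) h1
    exact sub_eq_zero.1 h2

/-- `exp ξ y - y` is close to `ξ y`. -/
theorem exp_sub_bound {ε : ℝ} (hε : 0 < ε) :
    ∃ δ > 0, ∀ ξ : E →L[ℝ] E, ‖ξ‖ < δ → ∀ y, ‖exp ξ y - y - ξ y‖ ≤ ε * ‖ξ y‖ := by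
  obtain ⟨δ, hδ, h⟩ := exists_norm_exp_sub_one (E := E) hε
  refine ⟨δ, hδ, fun ξ hξ y => ?_⟩
  have hd : ∀ t ∈ Icc (0 : ℝ) 1, HasDerivWithinAt (fun t : ℝ => exp (t • ξ) y - t • ξ y)
      (exp (t • ξ) (ξ y) - ξ y) (Icc 0 1) t := by
    intro t _
    refine HasDerivAt.hasDerivWithinAt ?_
    have h2 : HasDerivAt (fun t : ℝ => t • ξ y) (ξ y) t := by
      simpa using (hasDerivAt_id t).smul_const (ξ y)
    exact (exp_smul_apply_deriv ξ y t).sub h2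
  have hb := norm_image_sub_le_of_norm_deriv_le_segment_01' hd (C := ε * ‖ξ y‖) (by
    intro t ht
    have hn : ‖t • ξ‖ < δ := by
      rw [norm_smul, Real.norm_eq_abs, abs_of_nonneg ht.1]
      calc t * ‖ξ‖ ≤ 1 * ‖ξ‖ := by
            gcongr
            exact ht.2.le
        _ < δ := by rwa [one_mul]
    have e : exp (t • ξ) (ξ y) - ξ y = (exp (t • ξ) - 1) (ξ y) := by simp
    rw [e]
    exact ((exp (t • ξ) - 1).le_opNorm _).trans (by gcongr; exact (h _ hn).le))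
  simp only [one_smul, zero_smul, exp_zero, one_apply_eq_self, sub_zero] at hb
  have e : exp ξ y - ξ y - y = exp ξ y - y - ξ y := by abel
  rwa [e] at hb

/-- **Automorphisms near the identity move `y` almost in the direction of `Der y`.** -/
theorem near_val (m : E →L[ℝ] E →L[ℝ] E) (J : E →L[ℝ] E) {ε : ℝ} (hε : 0 < ε) :
    ∃ δ > 0, ∀ h : E →L[ℝ] E, IsAut m J h → ‖h - 1‖ < δ → ∀ y, ∃ w ∈ val (Der m J) y,
      ‖h y - y - w‖ ≤ ε * ‖h y - y‖ := by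
  obtain ⟨δ₁, hδ₁, h1⟩ := exists_der_of_exp m J
  obtain ⟨δ₂, hδ₂, h2⟩ := exp_sub_bound (E := E) (ε := ε / (1 + ε)) (by positivity)
  obtain ⟨δ, hδ, h3⟩ := exists_exp (E := E) (lt_min hδ₁ hδ₂)
  refine ⟨δ, hδ, fun h hA hh y => ?_⟩
  obtain ⟨ξ, hξ, rfl⟩ := h3 h hh
  have hD := h1 ξ (hξ.trans_le (min_le_left _ _)) hA
  have hb := h2 ξ (hξ.trans_le (min_le_right _ _)) y
  refine ⟨ξ y, mem_val.2 ⟨ξ, hD, rfl⟩, ?_⟩
  have hc : ‖ξ y‖ ≤ ‖exp ξ y - y‖ + ‖exp ξ y - y - ξ y‖ := by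
    have e : ξ y = (exp ξ y - y) - (exp ξ y - y - ξ y) := by abel
    calc ‖ξ y‖ = ‖(exp ξ y - y) - (exp ξ y - y - ξ y)‖ := by rw [← e]
      _ ≤ _ := norm_sub_le _ _
  set a := ‖exp ξ y - y - ξ y‖
  set b := ‖exp ξ y - y‖
  have h4 : a * (1 + ε) ≤ ε * ‖ξ y‖ := by
    calc a * (1 + ε) ≤ ε / (1 + ε) * ‖ξ y‖ * (1 + ε) := by gcongr
      _ = ε * ‖ξ y‖ := by field_simp
  have h5 : ε * ‖ξ y‖ ≤ ε * (b + a) := by gcongr
  linarith

end Complete

end Pool.Agent.R697.LD
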