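import Pool.Agent.R697.LD.Upper

/-!
# Real and complex algebras

Definitions of derivations, automorphisms, local derivations and local automorphisms of a
finite-dimensional algebra over `𝕜 = ℝ` or `ℂ`, and the comparison with the real setting.
-/

set_option autoImplicit false

namespace Pool.Agent.R697.LD

open NormedSpace Filter Topology Set

universe u v

section Defs

variable {𝕜 : Type u} [RCLike 𝕜] {V : Type v} [NormedAddCommGroup V] [NormedSpace 𝕜 V]

/-- `D` is a derivation of the algebra `V` with the bilinear product `m`. -/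
def IsDerivation (m : V →ₗ[𝕜] V →ₗ[𝕜] V) (D : V →L[𝕜] V) : Prop :=
  ∀ x y : V, D (m x y) = m (D x) y + m x (D y)

/-- `φ` is an automorphism of the algebra `V` with the bilinear product `m`. -/
def IsAutomorphism (m : V →ₗ[𝕜] V →ₗ[𝕜] V) (φ : V →L[𝕜] V) : Prop :=
  Function.Bijective φ ∧ ∀ x y : V, φ (m x y) = m (φ x) (φ y)

/-- The set of the local derivations of the algebra `V` with the bilinear product `m`. -/
def LocDer (m : V →ₗ[𝕜] V →ₗ[𝕜] V) : Set (V →L[𝕜] V) :=
  {Δ | ∀ x : V, ∃ D : V →L[𝕜] V, IsDerivation m D ∧ Δ x = D x}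

/-- The set of the local automorphisms of the algebra `V` with the bilinear product `m`. -/
def LocAut (m : V →ₗ[𝕜] V →ₗ[𝕜] V) : Set (V →L[𝕜] V) :=
  {φ | ∀ x : V, ∃ ψ : V →L[𝕜] V, IsAutomorphism m ψ ∧ φ x = ψ x}

/-- The set of all `X` with `exp(tX) ∈ G` for all real numbers `t` (this is the Lie algebra of `G`
when `G` is a closed subgroup of `GL(V)`). -/
def LieOf (G : Set (V →L[𝕜] V)) : Set (V →L[𝕜] V) :=
  {X | ∀ t : ℝ, exp ((t : 𝕜) • X) ∈ G}

end Defs

section Bridge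

variable {𝕜 : Type u} [RCLike 𝕜] {V : Type v} [NormedAddCommGroup V] [NormedSpace 𝕜 V]
  [NormedSpace ℝ V] [IsScalarTower ℝ 𝕜 V] [FiniteDimensional 𝕜 V]

omit [FiniteDimensional 𝕜 V] in
theorem real_smul_eq (r : ℝ) (x : V) : r • x = (r : 𝕜) • x := by
  rw [← smul_one_smul 𝕜 r x]
  congr 1
  rw [RCLike.real_smul_eq_coe_mul, mul_one]

/-- The real bilinear product. -/
noncomputable def mr [FiniteDimensional ℝ V] (m : V →ₗ[𝕜] V →ₗ[𝕜] V) : V →L[ℝ] V →L[ℝ] V :=
  LinearMap.toContinuousLinearMap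
    { toFun := fun x => LinearMap.toContinuousLinearMap ((m x).restrictScalars ℝ)
      map_add' := fun x y => by ext z; simp
      map_smul' := fun r x => by
        ext z
        show m (r • x) z = r • m x z
        rw [real_smul_eq (𝕜 := 𝕜), real_smul_eq (𝕜 := 𝕜), map_smul]
        rfl }

omit [FiniteDimensional 𝕜 V] in
theorem mr_apply [FiniteDimensional ℝ V] (m : V →ₗ[𝕜] V →ₗ[𝕜] V) (x y : V) :
    mr m x y = m x y := rfl

variable (𝕜 V) in
/-- Multiplication by `i`. -/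
noncomputable def Jr : V →L[ℝ] V :=
  ((RCLike.I : 𝕜) • ContinuousLinearMap.id 𝕜 V).restrictScalars ℝ

omit [FiniteDimensional 𝕜 V] in
theorem Jr_apply (x : V) : Jr 𝕜 V x = (RCLike.I : 𝕜) • x := rfl

/-- A real linear map commuting with `i` is `𝕜`-linear. -/
noncomputable def ofR (D : V →L[ℝ] V) (hD : ∀ x, D (Jr 𝕜 V x) = Jr 𝕜 V (D x)) : V →L[𝕜] V :=
  LinearMap.toContinuousLinearMap
    { toFun := D
      map_add' := fun x y => map_add D x y
      map_smul' := fun c x => by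
        have h1 : ∀ z : V, c • z = (RCLike.re c : ℝ) • z + (RCLike.im c : ℝ) • Jr 𝕜 V z := by
          intro z
          rw [Jr_apply, real_smul_eq (𝕜 := 𝕜), real_smul_eq (𝕜 := 𝕜), smul_smul, ← add_smul,
            RCLike.re_add_im]
        show D (c • x) = c • D x
        rw [h1, h1, map_add, map_smul, map_smul, hD] }

theorem ofR_apply (D : V →L[ℝ] V) (hD : ∀ x, D (Jr 𝕜 V x) = Jr 𝕜 V (D x)) (x : V) :
    ofR D hD x = D x := rfl

omit [FiniteDimensional 𝕜 V] in
theorem isDer_iff [FiniteDimensional ℝ V] (m : V →ₗ[𝕜] V →ₗ[𝕜] V) (D : V →L[𝕜] V) :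
    IsDerivation m D ↔ D.restrictScalars ℝ ∈ Der (mr m) (Jr 𝕜 V) := by
  constructor
  · intro h
    exact ⟨fun x y => h x y, fun x => by
      show D ((RCLike.I : 𝕜) • x) = (RCLike.I : 𝕜) • D x
      rw [map_smul]⟩
  · intro h x y
    exact h.1 x y

omit [FiniteDimensional 𝕜 V] in
theorem isAut_iff [FiniteDimensional ℝ V] (m : V →ₗ[𝕜] V →ₗ[𝕜] V) (φ : V →L[𝕜] V) :
    IsAutomorphism m φ ↔ IsAut (mr m) (Jr 𝕜 V) (φ.restrictScalars ℝ) := by
  have : CompleteSpace V := FiniteDimensional.complete ℝ V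
  constructor
  · intro h
    refine ⟨ContinuousLinearMap.isUnit_iff_bijective.2 h.1, fun x y => h.2 x y, fun x => ?_⟩
    show φ ((RCLike.I : 𝕜) • x) = (RCLike.I : 𝕜) • φ x
    rw [map_smul]
  · intro h
    have hb : Function.Bijective (φ.restrictScalars ℝ) :=
      ContinuousLinearMap.isUnit_iff_bijective.1 h.unit
    exact ⟨hb, fun x y => h.mul x y⟩

theorem mem_locDer_iff [FiniteDimensional ℝ V] (m : V →ₗ[𝕜] V →ₗ[𝕜] V) (Δ : V →L[𝕜] V) :
    Δ ∈ LocDer m ↔ IsLocal (Der (mr m) (Jr 𝕜 V)) (Δ.restrictScalars ℝ) := by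
  constructor
  · intro h x
    obtain ⟨D, hD, e⟩ := h x
    exact ⟨D.restrictScalars ℝ, (isDer_iff m D).1 hD, e⟩
  · intro h x
    obtain ⟨D, hD, e⟩ := h x
    exact ⟨ofR D hD.2, (isDer_iff m _).2 hD, e⟩

theorem mem_locAut_iff [FiniteDimensional ℝ V] (m : V →ₗ[𝕜] V →ₗ[𝕜] V) (φ : V →L[𝕜] V) :
    φ ∈ LocAut m ↔ ∀ x, Orb (mr m) (Jr 𝕜 V) x (φ x) := by
  constructor
  · intro h x
    obtain ⟨ψ, hψ, e⟩ := h x
    exact ⟨ψ.restrictScalars ℝ, (isAut_iff m ψ).1 hψ, e⟩
  · intro h x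
    obtain ⟨ψ, hψ, e⟩ := h x
    exact ⟨ofR ψ hψ.comm, (isAut_iff m _).2 hψ, e⟩

omit [FiniteDimensional 𝕜 V] in
theorem exp_restrictScalars [FiniteDimensional ℝ V] (X : V →L[𝕜] V) :
    (exp X : V →L[𝕜] V).restrictScalars ℝ = exp (X.restrictScalars ℝ) := by
  have : CompleteSpace V := FiniteDimensional.complete ℝ V
  let f : (V →L[𝕜] V) →+* (V →L[ℝ] V) :=
    { toFun := fun T => T.restrictScalars ℝ
      map_one' := rfl
      map_mul' := fun _ _ => rfl
      map_zero' := rfl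
      map_add' := fun _ _ => rfl }
  have hf : Continuous f := ContinuousLinearMap.continuous_restrictScalars ℝ
  let _ : NormedAlgebra ℚ (V →L[𝕜] V) := NormedAlgebra.restrictScalars ℚ 𝕜 _
  let _ : NormedAlgebra ℚ (V →L[ℝ] V) := NormedAlgebra.restrictScalars ℚ ℝ _
  exact map_exp f hf X

omit [FiniteDimensional 𝕜 V] in
theorem exp_smul_restrictScalars [FiniteDimensional ℝ V] (X : V →L[𝕜] V) (t : ℝ) (x : V) :
    exp ((t : 𝕜) • X) x = exp (t • X.restrictScalars ℝ) x := by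
  have h1 : ((t : 𝕜) • X).restrictScalars ℝ = t • X.restrictScalars ℝ := by
    ext z
    show (t : 𝕜) • X z = t • X z
    rw [real_smul_eq (𝕜 := 𝕜)]
  rw [← h1, ← exp_restrictScalars]
  rfl

end Bridge

/-- **The Lie algebra of the group of local automorphisms is the space of local derivations.** -/
theorem lieOf_locAut {𝕜 : Type u} [RCLike 𝕜] {V : Type v} [NormedAddCommGroup V]
    [NormedSpace 𝕜 V] [FiniteDimensional 𝕜 V] (m : V →ₗ[𝕜] V →ₗ[𝕜] V) :
    LieOf (LocAut m) = LocDer m := by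
  let _ : NormedSpace ℝ V := NormedSpace.restrictScalars ℝ 𝕜 V
  have : IsScalarTower ℝ 𝕜 V := inferInstance
  have : FiniteDimensional ℝ V := FiniteDimensional.trans ℝ 𝕜 V
  ext X
  rw [mem_locDer_iff]
  constructor
  · intro h x
    have h1 : ∀ t : ℝ, Orb (mr m) (Jr 𝕜 V) x (exp (t • X.restrictScalars ℝ) x) := by
      intro t
      rw [← exp_smul_restrictScalars]
      exact (mem_locAut_iff m _).1 (h t) x
    obtain ⟨D, hD, e⟩ := mem_val.1 (mem_val_of_orb h1)
    exact ⟨D, hD, e.symm⟩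
  · intro h t
    rw [mem_locAut_iff]
    intro x
    rw [exp_smul_restrictScalars]
    exact orb_of_isLocal h x t

end Pool.Agent.R697.LD
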