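import Pool.Agent.R697.LD.Cplx

/-!
# The group of local automorphisms is closed
-/

set_option autoImplicit false

namespace Pool.Agent.R697.LD

open NormedSpace Filter Topology

universe u v

/-- The exponential of a derivation is an automorphism. -/
theorem isAut_exp {E : Type u} [NormedAddCommGroup E] [NormedSpace ℝ E] [CompleteSpace E]
    {m : E →L[ℝ] E →L[ℝ] E} {J ξ : E →L[ℝ] E} (hξ : ξ ∈ Der m J) : IsAut m J (exp ξ) := by
  refine ⟨⟨⟨exp ξ, exp (-ξ), exp_mul_exp_neg ξ, exp_neg_mul_exp ξ⟩, rfl⟩, ?_, ?_⟩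
  · have h0 : defect m ξ = 0 := by
      ext x y
      rw [defect_apply, hξ.1]
      show m (ξ x) y + m x (ξ y) - m (ξ x) y - m x (ξ y) = 0
      abel
    have key : ∀ x y, exp ξ (m (exp (-ξ) x) (exp (-ξ) y)) = m x y := by
      intro x y
      have hF : ∀ t : ℝ, HasDerivAt (fun t : ℝ =>
          exp (t • ξ) (m (exp (-(t • ξ)) x) (exp (-(t • ξ)) y))) 0 t := by
        intro t
        refine (transport_deriv ξ x y t).congr_deriv ?_
        rw [h0]
        simp
      have hconst := is_const_of_deriv_eq_zero (fun t => (hF t).differentiableAt)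
        (fun t => (hF t).deriv) 1 0
      simpa using hconst
    intro x y
    rw [← key (exp ξ x) (exp ξ y), exp_neg_exp_apply, exp_neg_exp_apply]
  · have h1 : Commute ξ J := ContinuousLinearMap.ext hξ.2
    have h2 : exp ξ * J = J * exp ξ := (h1.symm.exp_right.eq).symm
    intro x
    exact congrArg (fun f : E →L[ℝ] E => f x) h2

section

variable {𝕜 : Type u} [RCLike 𝕜] {V : Type v} [NormedAddCommGroup V] [NormedSpace 𝕜 V]
  [FiniteDimensional 𝕜 V]

theorem isAutomorphism_exp {m : V →ₗ[𝕜] V →ₗ[𝕜] V} {D : V →L[𝕜] V} (hD : IsDerivation m D) :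
    IsAutomorphism m (exp D) := by
  let _ : NormedSpace ℝ V := NormedSpace.restrictScalars ℝ 𝕜 V
  have : IsScalarTower ℝ 𝕜 V := inferInstance
  have : FiniteDimensional ℝ V := FiniteDimensional.trans ℝ 𝕜 V
  have : CompleteSpace V := FiniteDimensional.complete ℝ V
  rw [isAut_iff, exp_restrictScalars]
  exact isAut_exp ((isDer_iff m D).1 hD)

/-- The dimension of the space of the values of the derivations is lower semicontinuous. -/
theorem finrank_le_of_mem_closure {m : V →ₗ[𝕜] V →ₗ[𝕜] V} {x : V} {r : ℕ}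
    (h : x ∈ closure {z | Module.finrank 𝕜 (dval m z) ≤ r}) :
    Module.finrank 𝕜 (dval m x) ≤ r := by
  let w := Module.finBasis 𝕜 (dval m x)
  have hw : ∀ i, ∃ D : V →L[𝕜] V, IsDerivation m D ∧ D x = w i := fun i => (w i).2
  choose D hD hDx using hw
  have hopen : IsOpen {z : V | LinearIndependent 𝕜 (fun i => D i z)} := by
    have hc : Continuous fun z : V => (fun i => D i z) :=
      continuous_pi fun i => (D i).continuous
    exact (isOpen_setOfPred_linearIndependent (𝕜 := 𝕜) (E := V)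
      (ι := Fin (Module.finrank 𝕜 (dval m x)))).preimage hc
  have hx : x ∈ {z : V | LinearIndependent 𝕜 (fun i => D i z)} := by
    show LinearIndependent 𝕜 (fun i => D i x)
    have e : (fun i => D i x) = fun i => (w i : V) := funext hDx
    rw [e]
    exact w.linearIndependent.map' (dval m x).subtype (Submodule.ker_subtype _)
  obtain ⟨z, hz1, hz2⟩ := mem_closure_iff.1 h _ hopen hx
  have hli : LinearIndependent 𝕜 (fun i => (⟨D i z, D i, hD i, rfl⟩ : dval m z)) := by
    refine LinearIndependent.of_comp (dval m z).subtype ?_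
    exact hz1
  have hcard := hli.fintype_card_le_finrank
  rw [Fintype.card_fin] at hcard
  exact hcard.trans hz2

/-- The orbit of `x` under the automorphism group. -/
def orbset (m : V →ₗ[𝕜] V →ₗ[𝕜] V) (x : V) : Set V :=
  {z | ∃ φ : V →L[𝕜] V, IsAutomorphism m φ ∧ z = φ x}

omit [FiniteDimensional 𝕜 V] in
theorem orbset_comp {m : V →ₗ[𝕜] V →ₗ[𝕜] V} {x z : V} (hz : z ∈ orbset m x) {ψ : V →L[𝕜] V}
    (hψ : IsAutomorphism m ψ) : ψ z ∈ orbset m x := by
  obtain ⟨φ, hφ, rfl⟩ := hz
  exact ⟨ψ.comp φ, hψ.comp hφ, rfl⟩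

theorem orbset_symm {m : V →ₗ[𝕜] V →ₗ[𝕜] V} {x z : V} (hz : z ∈ orbset m x) :
    x ∈ orbset m z := by
  obtain ⟨φ, hφ, rfl⟩ := hz
  obtain ⟨g, hg, h1, h2⟩ := hφ.exists_inv
  exact ⟨g, hg, (h1 x).symm⟩

/-- Finiteness of the slices of orbits. -/
theorem finite_slice' (m : V →ₗ[𝕜] V →ₗ[𝕜] V) (x y : V) {r : ℕ}
    (Λ : V →ₗ[𝕜] (Fin r → 𝕜)) (D : Fin r → (V →L[𝕜] V))
    (hD : ∀ j, IsDerivation m (D j)) (hdim : Module.finrank 𝕜 (dval m x) ≤ r) :
    {z | z ∈ orbset m x ∧ Λ z = Λ y ∧ (Matrix.of fun i j => Λ (D j z) i).det ≠ 0}.Finite := by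
  obtain ⟨d⟩ := exists_cdata 𝕜
  let b := Module.finBasis 𝕜 V
  let g : V →ₛₗ[d.f] (Fin r → ℂ) :=
    { toFun := fun x i => d.f (Λ x i)
      map_add' := fun x y => by
        ext i
        simp
      map_smul' := fun c x => by
        ext i
        simp }
  have hg : ∀ x i, g x i = d.f (Λ x i) := fun _ _ => rfl
  have hfin := finite_slice (mC d b m) (io d b x) (io d b y) (ex b g) (fun j => opC d b (D j))
    (fun j => isDerivation_opC d b (hD j)) ((finrank_dval_mC_le b m x).trans hdim)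
  refine (hfin.preimage (io_injective d b).injOn).subset ?_
  rintro z ⟨⟨φ, hφ, rfl⟩, hΛ, hdet⟩
  refine ⟨⟨opC d b φ, isAutomorphism_opC d b hφ, (opC_io d b φ x).symm⟩, ?_, ?_⟩
  · rw [ex_io, ex_io]
    ext i
    rw [hg, hg, hΛ]
  · have e : sm (ex b g) (fun j => opC d b (D j)) (io d b (φ x)) =
        d.f.mapMatrix (Matrix.of fun i j => Λ (D j (φ x)) i) := by
      ext i j
      show ex b g (opC d b (D j) (io d b (φ x))) i = d.f (Λ (D j (φ x)) i)
      rw [opC_io, ex_io]
      exact hg _ _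
    rw [e, ← RingHom.map_det]
    intro h0
    exact hdet (d.f.injective (by rw [h0, map_zero]))

/-- **The main step**: two points in each other's orbit closures are in the same orbit. -/
theorem mem_orbset_of_mem_closure {m : V →ₗ[𝕜] V →ₗ[𝕜] V} {x y : V}
    (h1 : y ∈ closure (orbset m x)) (h2 : x ∈ closure (orbset m y)) : y ∈ orbset m x := by
  have : CompleteSpace V := FiniteDimensional.complete 𝕜 V
  have hdim : Module.finrank 𝕜 (dval m x) ≤ Module.finrank 𝕜 (dval m y) := by
    refine finrank_le_of_mem_closure (closure_mono ?_ h2)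
    rintro _ ⟨φ, hφ, rfl⟩
    exact finrank_dval_le hφ y
  let w := Module.finBasis 𝕜 (dval m y)
  have hw : ∀ i, ∃ D : V →L[𝕜] V, IsDerivation m D ∧ D y = w i := fun i => (w i).2
  choose D hD hDy using hw
  obtain ⟨p, hp⟩ := LinearMap.exists_leftInverse_of_injective (dval m y).subtype
    (Submodule.ker_subtype _)
  let Λ : V →ₗ[𝕜] (Fin (Module.finrank 𝕜 (dval m y)) → 𝕜) := (w.equivFun : _ →ₗ[𝕜] _) ∘ₗ p
  have hΛD : ∀ j, Λ (D j y) = Pi.single j 1 := by
    intro j
    have h3 : p (w j : V) = w j := LinearMap.congr_fun hp (w j)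
    show w.equivFun (p (D j y)) = _
    rw [hDy, h3]
    ext i
    rw [Module.Basis.equivFun_self, Pi.single_apply]
    congr 1
    exact propext eq_comm
  let S : V →L[𝕜] (V →L[𝕜] V) := LinearMap.toContinuousLinearMap
    ((Fintype.linearCombination 𝕜 D) ∘ₗ Λ)
  have hS : ∀ v, S v = ∑ j, Λ v j • D j := fun v => rfl
  have hSder : ∀ v, IsDerivation m (S v) := by
    intro v a b
    rw [hS]
    simp only [sum_apply, smul_apply, map_sum, LinearMap.sum_apply,
      ← Finset.sum_add_distrib, map_smul, LinearMap.smul_apply]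
    refine Finset.sum_congr rfl fun j _ => ?_
    rw [hD j, smul_add]
  have hΛS : ∀ v, Λ (S v y) = Λ v := by
    intro v
    rw [hS]
    rw [sum_apply, map_sum]
    conv_rhs => rw [← Finset.univ_sum_single (Λ v)]
    refine Finset.sum_congr rfl fun j _ => ?_
    rw [smul_apply, map_smul, hΛD, ← Pi.single_smul, smul_eq_mul, mul_one]
  let τ : V → V := fun v => y + v - S v y
  let Ψ : V → V := fun v => exp (S v) (τ v)
  have hτ0 : τ 0 = y := by simp [τ]
  have hΨ0 : Ψ 0 = y := by simp [Ψ, hτ0]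
  have hτd : HasStrictFDerivAt τ (ContinuousLinearMap.id 𝕜 V - S.flip y) 0 := by
    have h3 : HasStrictFDerivAt (fun v : V => y + v) (ContinuousLinearMap.id 𝕜 V) 0 :=
      (hasStrictFDerivAt_id (0 : V)).const_add y
    exact h3.sub (S.flip y).hasStrictFDerivAt
  have hexp : HasStrictFDerivAt (fun v => exp (S v)) S 0 := by
    have h3 : HasStrictFDerivAt (exp : (V →L[𝕜] V) → (V →L[𝕜] V))
        (1 : (V →L[𝕜] V) →L[𝕜] (V →L[𝕜] V)) (S 0) := by
      rw [map_zero]
      exact hasStrictFDerivAt_exp_zero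
    exact h3.comp (0 : V) S.hasStrictFDerivAt
  have hΨd : HasStrictFDerivAt Ψ (ContinuousLinearMap.id 𝕜 V) 0 := by
    have h3 := hexp.clm_apply hτd
    refine h3.congr_fderiv ?_
    ext v
    simp [hτ0]
  have hmap : map Ψ (𝓝 0) = 𝓝 y := by
    have h3 := hΨd.map_nhds_eq_of_surj (by
      rw [LinearMap.range_eq_top]
      exact fun x => ⟨x, rfl⟩)
    rwa [hΨ0] at h3
  have hfin := finite_slice' m x y Λ D hD hdim
  set F := {z | z ∈ orbset m x ∧ Λ z = Λ y ∧ (Matrix.of fun i j => Λ (D j z) i).det ≠ 0} with hF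
  have hcl : y ∈ closure F := by
    rw [mem_closure_iff_nhds]
    intro U hU
    have hdet0 : (Matrix.of fun i j => Λ (D j y) i).det ≠ 0 := by
      have e : (Matrix.of fun i j => Λ (D j y) i) = 1 := by
        ext i j
        rw [Matrix.of_apply, hΛD, Pi.single_apply, Matrix.one_apply]
      rw [e, Matrix.det_one]
      exact one_ne_zero
    have hcdet : Continuous fun z : V => (Matrix.of fun i j => Λ (D j z) i).det := by
      have hΛc : Continuous Λ := Λ.continuous_of_finiteDimensional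
      refine Continuous.matrix_det ?_
      refine continuous_pi fun i => continuous_pi fun j => ?_
      exact (continuous_apply i).comp (hΛc.comp (D j).continuous)
    have hτc : ContinuousAt τ 0 := hτd.continuousAt
    have hW : {v | τ v ∈ U ∧ (Matrix.of fun i j => Λ (D j (τ v)) i).det ≠ 0} ∈ 𝓝 (0 : V) := by
      refine Filter.inter_mem ?_ ?_
      · refine hτc ?_
        rwa [hτ0]
      · have h3 : ContinuousAt (fun v => (Matrix.of fun i j => Λ (D j (τ v)) i).det) 0 :=
          ContinuousAt.comp (g := fun z : V => (Matrix.of fun i j => Λ (D j z) i).det)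
            hcdet.continuousAt hτc
        refine h3.eventually_ne ?_
        rw [hτ0]
        exact hdet0
    have hΨW : Ψ '' {v | τ v ∈ U ∧ (Matrix.of fun i j => Λ (D j (τ v)) i).det ≠ 0} ∈ 𝓝 y := by
      rw [← hmap]
      exact image_mem_map hW
    obtain ⟨z, ⟨v, ⟨hv1, hv2⟩, rfl⟩, hz⟩ := mem_closure_iff_nhds.1 h1 _ hΨW
    refine ⟨τ v, hv1, ?_, ?_, hv2⟩
    · obtain ⟨g, hg, g1, g2⟩ := (isAutomorphism_exp (hSder v)).exists_inv
      have h3 := orbset_comp hz hg
      have h4 : g (Ψ v) = τ v := g1 (τ v)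
      rwa [h4] at h3
    · show Λ (y + v - S v y) = Λ y
      rw [map_sub, map_add, hΛS, add_sub_cancel_right]
  rw [hfin.isClosed.closure_eq] at hcl
  exact hcl.1

end

end Pool.Agent.R697.LD
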