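import Pool.Agent.R697.LD.KeyC

/-!
# Complexification in coordinates
-/

set_option autoImplicit false

namespace Pool.Agent.R697.LD

open NormedSpace Filter Topology

universe u v

/-- A ring homomorphism `𝕜 → ℂ` together with two retractions. -/
structure CData (𝕜 : Type u) [RCLike 𝕜] where
  f : 𝕜 →+* ℂ
  r₁ : ℂ →+ 𝕜
  r₂ : ℂ →+ 𝕜
  h₁ : ∀ c z, r₁ (f c * z) = c * r₁ z
  h₂ : ∀ c z, r₂ (f c * z) = c * r₂ z
  h₃ : ∀ z, f (r₁ z) + Complex.I * f (r₂ z) = z

theorem exists_cdata (𝕜 : Type u) [RCLike 𝕜] : Nonempty (CData 𝕜) := by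
  let f : 𝕜 →+* ℂ :=
    { toFun := fun c => ⟨RCLike.re c, RCLike.im c⟩
      map_one' := by
        apply Complex.ext <;> simp
      map_mul' := fun a b => by
        apply Complex.ext
        · simp [RCLike.mul_re]
        · simp [RCLike.mul_im]
      map_zero' := by
        apply Complex.ext <;> simp
      map_add' := fun a b => by
        apply Complex.ext <;> simp }
  have hf1 : ∀ c, (f c).re = RCLike.re c := fun _ => rfl
  have hf2 : ∀ c, (f c).im = RCLike.im c := fun _ => rfl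
  rcases RCLike.I_eq_zero_or_im_I_eq_one (K := 𝕜) with hI | hI
  · have him : ∀ c : 𝕜, RCLike.im c = 0 := by
      intro c
      have h1 := RCLike.re_add_im c
      rw [hI, mul_zero, add_zero] at h1
      rw [← h1, RCLike.ofReal_im]
    have hc : ∀ c : 𝕜, ((RCLike.re c : ℝ) : 𝕜) = c := by
      intro c
      have h1 := RCLike.re_add_im c
      rwa [hI, mul_zero, add_zero] at h1
    refine ⟨⟨f, ⟨⟨fun z => ((z.re : ℝ) : 𝕜), by simp⟩, fun a b => by simp⟩,
      ⟨⟨fun z => ((z.im : ℝ) : 𝕜), by simp⟩, fun a b => by simp⟩, ?_, ?_, ?_⟩⟩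
    · intro c z
      show (((f c * z).re : ℝ) : 𝕜) = c * ((z.re : ℝ) : 𝕜)
      rw [Complex.mul_re, hf1, hf2, him, zero_mul, sub_zero, RCLike.ofReal_mul, hc]
    · intro c z
      show (((f c * z).im : ℝ) : 𝕜) = c * ((z.im : ℝ) : 𝕜)
      rw [Complex.mul_im, hf1, hf2, him, zero_mul, add_zero, RCLike.ofReal_mul, hc]
    · intro z
      show f ((z.re : ℝ) : 𝕜) + Complex.I * f ((z.im : ℝ) : 𝕜) = z
      apply Complex.ext
      · simp [hf1, hf2]
      · simp [hf1, hf2]
  · refine ⟨⟨f, ⟨⟨fun z => ((z.re : ℝ) : 𝕜) + ((z.im : ℝ) : 𝕜) * RCLike.I, by simp⟩,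
      fun a b => by
        simp only [Complex.add_re, Complex.add_im, RCLike.ofReal_add]
        ring⟩, 0, ?_, ?_, ?_⟩⟩
    · intro c z
      show (((f c * z).re : ℝ) : 𝕜) + (((f c * z).im : ℝ) : 𝕜) * RCLike.I =
        c * (((z.re : ℝ) : 𝕜) + ((z.im : ℝ) : 𝕜) * RCLike.I)
      have hII : (RCLike.I : 𝕜) * RCLike.I = -1 := by
        rcases RCLike.I_mul_I (K := 𝕜) with h | h
        · rw [h] at hI
          simp at hI
        · exact h
      rw [Complex.mul_re, Complex.mul_im, hf1, hf2]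
      conv_rhs => rw [← RCLike.re_add_im c]
      push_cast
      linear_combination (-(((RCLike.im c : ℝ) : 𝕜) * ((z.im : ℝ) : 𝕜))) * hII
    · intro c z
      simp
    · intro z
      show f (((z.re : ℝ) : 𝕜) + ((z.im : ℝ) : 𝕜) * RCLike.I) + Complex.I * f 0 = z
      rw [map_zero, mul_zero, add_zero]
      apply Complex.ext
      · rw [hf1]
        simp
      · rw [hf2]
        simp [hI]

section Coord

variable {𝕜 : Type u} [RCLike 𝕜] {V : Type v} [NormedAddCommGroup V] [NormedSpace 𝕜 V]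
  {n : ℕ} (d : CData 𝕜) (b : Module.Basis (Fin n) 𝕜 V)

/-- The coordinate map. -/
noncomputable def io : V →ₛₗ[d.f] (Fin n → ℂ) where
  toFun x k := d.f (b.repr x k)
  map_add' x y := by
    ext k
    simp
  map_smul' c x := by
    ext k
    simp

theorem io_apply (x : V) (k : Fin n) : io d b x k = d.f (b.repr x k) := rfl

theorem io_basis (i : Fin n) : io d b (b i) = Pi.single i 1 := by
  ext k
  rw [io_apply, b.repr_self, Finsupp.single_apply, Pi.single_apply]
  by_cases h : i = k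
  · rw [if_pos h, if_pos h.symm, map_one]
  · rw [if_neg h, if_neg (Ne.symm h), map_zero]

theorem io_injective : Function.Injective (io d b) := by
  intro x y h
  apply b.repr.injective
  ext k
  exact d.f.injective (congrFun h k)

/-- Two linear maps which agree on the image of `V` are equal. -/
theorem ext_io {W : Type*} [AddCommGroup W] [Module ℂ W] {A B : (Fin n → ℂ) →ₗ[ℂ] W}
    (h : ∀ x, A (io d b x) = B (io d b x)) : A = B := by
  refine LinearMap.pi_ext fun i c => ?_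
  have h1 : (Pi.single i c : Fin n → ℂ) = c • (Pi.single i 1 : Fin n → ℂ) := by
    rw [← Pi.single_smul, smul_eq_mul, mul_one]
  rw [h1, map_smul, map_smul, ← io_basis d b, h]

/-- The extension of a semilinear map. -/
noncomputable def ex {W : Type*} [AddCommGroup W] [Module ℂ W] (g : V → W) :
    (Fin n → ℂ) →ₗ[ℂ] W := Fintype.linearCombination ℂ (fun j => g (b j))

theorem ex_io {W : Type*} [AddCommGroup W] [Module ℂ W] (g : V →ₛₗ[d.f] W) (x : V) :
    ex b g (io d b x) = g x := by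
  rw [ex, Fintype.linearCombination_apply]
  conv_rhs => rw [← b.sum_repr x, map_sum]
  refine Finset.sum_congr rfl fun i _ => ?_
  rw [map_smulₛₗ, io_apply]

/-- The complexified product. -/
noncomputable def mC (m : V →ₗ[𝕜] V →ₗ[𝕜] V) : (Fin n → ℂ) →ₗ[ℂ] (Fin n → ℂ) →ₗ[ℂ] (Fin n → ℂ) :=
  ex b (fun x => ex b (fun y => io d b (m x y)))

theorem mC_io (m : V →ₗ[𝕜] V →ₗ[𝕜] V) (x y : V) :
    mC d b m (io d b x) (io d b y) = io d b (m x y) := by
  let g : V →ₛₗ[d.f] ((Fin n → ℂ) →ₗ[ℂ] (Fin n → ℂ)) :=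
    { toFun := fun x => ex b (fun y => io d b (m x y))
      map_add' := fun x x' => by
        refine ext_io d b fun y => ?_
        have h : ∀ z, ex b (fun y => io d b (m z y)) (io d b y) = io d b (m z y) := fun z =>
          ex_io d b ((io d b).comp (m z)) y
        rw [LinearMap.add_apply, h, h, h, map_add, LinearMap.add_apply, map_add]
      map_smul' := fun c x => by
        refine ext_io d b fun y => ?_
        have h : ∀ z, ex b (fun y => io d b (m z y)) (io d b y) = io d b (m z y) := fun z =>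
          ex_io d b ((io d b).comp (m z)) y
        rw [LinearMap.smul_apply, h, h, map_smul, LinearMap.smul_apply, map_smulₛₗ] }
  have h1 : mC d b m (io d b x) = g x := ex_io d b g x
  rw [h1]
  exact ex_io d b ((io d b).comp (m x)) y

/-- The complexification of an operator. -/
noncomputable def opC (T : V →L[𝕜] V) : (Fin n → ℂ) →L[ℂ] (Fin n → ℂ) :=
  LinearMap.toContinuousLinearMap (ex b (fun x => io d b (T x)))

theorem opC_io (T : V →L[𝕜] V) (x : V) : opC d b T (io d b x) = io d b (T x) :=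
  ex_io d b ((io d b).comp (T : V →ₗ[𝕜] V)) x

theorem opC_comp_eq {S T : V →L[𝕜] V} (h : ∀ x, S (T x) = x) (p : Fin n → ℂ) :
    opC d b S (opC d b T p) = p := by
  have h1 : (opC d b S : (Fin n → ℂ) →ₗ[ℂ] (Fin n → ℂ)).comp
      (opC d b T : (Fin n → ℂ) →ₗ[ℂ] (Fin n → ℂ)) = LinearMap.id := by
    refine ext_io d b fun x => ?_
    show opC d b S (opC d b T (io d b x)) = io d b x
    rw [opC_io, opC_io, h]
  exact LinearMap.congr_fun h1 p

theorem isAutomorphism_opC [FiniteDimensional 𝕜 V] {m : V →ₗ[𝕜] V →ₗ[𝕜] V} {φ : V →L[𝕜] V}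
    (hφ : IsAutomorphism m φ) : IsAutomorphism (mC d b m) (opC d b φ) := by
  obtain ⟨g, hg, h1, h2⟩ := hφ.exists_inv
  refine ⟨⟨Function.LeftInverse.injective (g := opC d b g) (opC_comp_eq d b h1),
    Function.RightInverse.surjective (g := opC d b g) (opC_comp_eq d b h2)⟩, ?_⟩
  intro p q
  have h : (mC d b m).compr₂ (opC d b φ : (Fin n → ℂ) →ₗ[ℂ] (Fin n → ℂ)) =
      (mC d b m).compl₁₂ (opC d b φ : (Fin n → ℂ) →ₗ[ℂ] (Fin n → ℂ))
        (opC d b φ : (Fin n → ℂ) →ₗ[ℂ] (Fin n → ℂ)) := by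
    refine ext_io d b fun x => ext_io d b fun y => ?_
    show opC d b φ (mC d b m (io d b x) (io d b y)) =
      mC d b m (opC d b φ (io d b x)) (opC d b φ (io d b y))
    rw [opC_io, opC_io, mC_io, opC_io, mC_io, hφ.2]
  exact LinearMap.congr_fun (LinearMap.congr_fun h p) q

theorem isDerivation_opC {m : V →ₗ[𝕜] V →ₗ[𝕜] V} {D : V →L[𝕜] V}
    (hD : IsDerivation m D) : IsDerivation (mC d b m) (opC d b D) := by
  intro p q
  have h : (mC d b m).compr₂ (opC d b D : (Fin n → ℂ) →ₗ[ℂ] (Fin n → ℂ)) =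
      (mC d b m).compl₁₂ (opC d b D : (Fin n → ℂ) →ₗ[ℂ] (Fin n → ℂ)) LinearMap.id +
      (mC d b m).compl₁₂ LinearMap.id (opC d b D : (Fin n → ℂ) →ₗ[ℂ] (Fin n → ℂ)) := by
    refine ext_io d b fun x => ext_io d b fun y => ?_
    show opC d b D (mC d b m (io d b x) (io d b y)) =
      mC d b m (opC d b D (io d b x)) (io d b y) + mC d b m (io d b x) (opC d b D (io d b y))
    rw [opC_io, opC_io, mC_io, opC_io, mC_io, mC_io, hD, map_add]
  exact LinearMap.congr_fun (LinearMap.congr_fun h p) q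

/-- The retraction. -/
noncomputable def re' (ρ : ℂ →+ 𝕜) : (Fin n → ℂ) →+ V where
  toFun p := ∑ k, ρ (p k) • b k
  map_zero' := by simp
  map_add' p q := by simp [add_smul, Finset.sum_add_distrib]

theorem re'_apply (ρ : ℂ →+ 𝕜) (p : Fin n → ℂ) : re' b ρ p = ∑ k, ρ (p k) • b k := rfl

variable {d}

theorem re'_smul {ρ : ℂ →+ 𝕜} (hρ : ∀ c z, ρ (d.f c * z) = c * ρ z) (c : 𝕜) (p : Fin n → ℂ) :
    re' b ρ (d.f c • p) = c • re' b ρ p := by
  rw [re'_apply, re'_apply, Finset.smul_sum]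
  refine Finset.sum_congr rfl fun k _ => ?_
  rw [Pi.smul_apply, smul_eq_mul, hρ, mul_smul]

theorem re'_smul_io {ρ : ℂ →+ 𝕜} (hρ : ∀ c z, ρ (d.f c * z) = c * ρ z) (z : ℂ) (y : V) :
    re' b ρ (z • io d b y) = ρ z • y := by
  rw [re'_apply]
  conv_rhs => rw [← b.sum_repr y, Finset.smul_sum]
  refine Finset.sum_congr rfl fun k _ => ?_
  rw [Pi.smul_apply, smul_eq_mul, io_apply, mul_comm, hρ, smul_smul, mul_comm]

theorem expand_io (p : Fin n → ℂ) : p = ∑ j, p j • io d b (b j) := by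
  conv_lhs => rw [← Finset.univ_sum_single p]
  refine Finset.sum_congr rfl fun j _ => ?_
  rw [io_basis, ← Pi.single_smul, smul_eq_mul, mul_one]

theorem re'_left {ρ : ℂ →+ 𝕜} (hρ : ∀ c z, ρ (d.f c * z) = c * ρ z) (m : V →ₗ[𝕜] V →ₗ[𝕜] V)
    (x : V) (p : Fin n → ℂ) : re' b ρ (mC d b m (io d b x) p) = m x (re' b ρ p) := by
  conv_lhs => rw [expand_io (d := d) b p, map_sum, map_sum]
  rw [re'_apply b ρ p, map_sum]
  refine Finset.sum_congr rfl fun j _ => ?_
  rw [map_smul, mC_io, re'_smul_io b hρ, map_smul]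

theorem re'_right {ρ : ℂ →+ 𝕜} (hρ : ∀ c z, ρ (d.f c * z) = c * ρ z) (m : V →ₗ[𝕜] V →ₗ[𝕜] V)
    (x : V) (p : Fin n → ℂ) : re' b ρ (mC d b m p (io d b x)) = m (re' b ρ p) x := by
  conv_lhs => rw [expand_io (d := d) b p, map_sum, LinearMap.sum_apply, map_sum]
  rw [re'_apply b ρ p, map_sum, LinearMap.sum_apply]
  refine Finset.sum_congr rfl fun j _ => ?_
  rw [map_smul, LinearMap.smul_apply, mC_io, re'_smul_io b hρ, map_smul, LinearMap.smul_apply]

variable [FiniteDimensional 𝕜 V]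

/-- The real and imaginary parts of a derivation. -/
noncomputable def part {ρ : ℂ →+ 𝕜} (hρ : ∀ c z, ρ (d.f c * z) = c * ρ z)
    (𝔇 : (Fin n → ℂ) →L[ℂ] (Fin n → ℂ)) : V →L[𝕜] V :=
  LinearMap.toContinuousLinearMap
    { toFun := fun x => re' b ρ (𝔇 (io d b x))
      map_add' := fun x y => by rw [map_add, map_add, map_add]
      map_smul' := fun c x => by
        rw [map_smulₛₗ, map_smul, re'_smul b hρ]
        rfl }

theorem part_apply {ρ : ℂ →+ 𝕜} (hρ : ∀ c z, ρ (d.f c * z) = c * ρ z)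
    (𝔇 : (Fin n → ℂ) →L[ℂ] (Fin n → ℂ)) (x : V) : part b hρ 𝔇 x = re' b ρ (𝔇 (io d b x)) := rfl

theorem isDerivation_part {ρ : ℂ →+ 𝕜} (hρ : ∀ c z, ρ (d.f c * z) = c * ρ z)
    {m : V →ₗ[𝕜] V →ₗ[𝕜] V} {𝔇 : (Fin n → ℂ) →L[ℂ] (Fin n → ℂ)}
    (h : IsDerivation (mC d b m) 𝔇) : IsDerivation m (part b hρ 𝔇) := by
  intro x y
  rw [part_apply, part_apply, part_apply, ← mC_io, h, map_add, re'_left b hρ, re'_right b hρ]

omit [FiniteDimensional 𝕜 V] in
theorem recombine (p : Fin n → ℂ) :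
    p = io d b (re' b d.r₁ p) + Complex.I • io d b (re' b d.r₂ p) := by
  have h : ∀ (ρ : ℂ →+ 𝕜) k, b.repr (re' b ρ p) k = ρ (p k) := by
    intro ρ k
    rw [re'_apply]
    simp [Finsupp.single_apply]
  ext k
  rw [Pi.add_apply, Pi.smul_apply, io_apply, io_apply, h, h, smul_eq_mul, d.h₃]

/-- The dimension of the space of the values of the derivations does not grow. -/
theorem finrank_dval_mC_le (m : V →ₗ[𝕜] V →ₗ[𝕜] V) (x : V) :
    Module.finrank ℂ (dval (mC d b m) (io d b x)) ≤ Module.finrank 𝕜 (dval m x) := by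
  let w := Module.finBasis 𝕜 (dval m x)
  have h1 : ∀ y ∈ dval m x, io d b y ∈
      Submodule.span ℂ (Set.range fun i => io d b (w i : V)) := by
    intro y hy
    have h2 := congrArg Subtype.val (w.sum_repr ⟨y, hy⟩)
    rw [← show _ = y from h2]
    rw [Submodule.coe_sum, map_sum]
    refine Submodule.sum_mem _ fun i _ => ?_
    rw [Submodule.coe_smul, map_smulₛₗ]
    exact Submodule.smul_mem _ _ (Submodule.subset_span ⟨i, rfl⟩)
  have h2 : dval (mC d b m) (io d b x) ≤
      Submodule.span ℂ (Set.range fun i => io d b (w i : V)) := by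
    rintro _ ⟨𝔇, h𝔇, rfl⟩
    rw [recombine (d := d) b (𝔇 (io d b x))]
    refine Submodule.add_mem _ (h1 _ ⟨_, isDerivation_part b d.h₁ h𝔇, rfl⟩)
      (Submodule.smul_mem _ _ (h1 _ ⟨_, isDerivation_part b d.h₂ h𝔇, rfl⟩))
  refine (Submodule.finrank_mono h2).trans ?_
  have h3 := finrank_range_le_card (R := ℂ) (fun i => io d b (w i : V))
  rw [Set.finrank] at h3
  simpa using h3

end Coord

end Pool.Agent.R697.LD
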