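import Mathlib

/-!
# Countable images of complex algebraic sets are finite

If a polynomial function takes only countably many values on a complex algebraic set, then it
takes only finitely many values.
-/

set_option autoImplicit false

namespace Pool.Agent.R697.LD

open MvPolynomial Cardinal

/-- The common zeros of a set of polynomials. -/
def Zeros {σ : Type} (S : Set (MvPolynomial σ ℂ)) : Set (σ → ℂ) := {a | ∀ g ∈ S, eval a g = 0}

theorem exists_alg_eq {K : Type*} [Field K] [Algebra ℂ K] {x : K} (hx : IsAlgebraic ℂ x) :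
    ∃ c : ℂ, algebraMap ℂ K c = x := by
  have h1 : IsIntegral ℂ x := hx.isIntegral
  have h2 := minpoly.irreducible h1
  have h3 := IsAlgClosed.degree_eq_one_of_irreducible ℂ h2
  exact minpoly.mem_range_of_degree_eq_one ℂ x h3

theorem linInd_inv {D K : Type*} [CommRing D] [Algebra ℂ D] [Field K] [Algebra D K] [Algebra ℂ K]
    [IsScalarTower ℂ D K] {x : K} (hx : Transcendental ℂ x) (N : Set ℂ) (g : ℂ → D)
    (hg : ∀ c ∈ N, algebraMap D K (g c) * (x - algebraMap ℂ K c) = 1) :
    LinearIndependent ℂ (fun c : N => g c) := by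
  have h1 : LinearIndependent ℂ (fun c : N => (x - algebraMap ℂ K c)⁻¹) :=
    hx.linearIndependent_sub_inv.comp _ Subtype.val_injective
  refine LinearIndependent.of_comp (IsScalarTower.toAlgHom ℂ D K).toLinearMap ?_
  have h2 : (⇑(IsScalarTower.toAlgHom ℂ D K).toLinearMap ∘ fun c : N => g c)
      = fun c : N => (x - algebraMap ℂ K c)⁻¹ := by
    funext c
    exact eq_inv_of_mul_eq_one_left (hg c c.2)
  rw [h2]
  exact h1

/-- For a prime ideal modulo which `f` is not constant, `f` takes all but countably many values on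
its zeros. -/
theorem countable_nonvalues {σ : Type} [Finite σ] (p : Ideal (MvPolynomial σ ℂ)) [hp : p.IsPrime]
    (f : MvPolynomial σ ℂ) (hf : ∀ c : ℂ, f - C c ∉ p) :
    {c : ℂ | ∀ a ∈ Zeros (p : Set (MvPolynomial σ ℂ)), eval a f ≠ c}.Countable := by
  set N : Set ℂ := {c : ℂ | ∀ a ∈ Zeros (p : Set (MvPolynomial σ ℂ)), eval a f ≠ c} with hN
  let D := MvPolynomial σ ℂ ⧸ p
  let K := FractionRing D
  have hunit : ∀ c ∈ N, ∃ g : D, g * (Ideal.Quotient.mk p (f - C c)) = 1 := by
    intro c hc
    have htop : p ⊔ Ideal.span {f - C c} = ⊤ := by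
      by_contra hne
      obtain ⟨M, hM, hle⟩ := Ideal.exists_le_maximal _ hne
      obtain ⟨a, ha⟩ := isMaximal_iff_eq_vanishingIdeal_singleton.1 hM
      have h1 : ∀ g ∈ M, eval a g = 0 := by
        intro g hg
        rw [ha, mem_vanishingIdeal_singleton_iff] at hg
        rwa [aeval_eq_eval] at hg
      refine hc a (fun g hg => h1 g (hle (Ideal.mem_sup_left hg))) ?_
      have h2 := h1 (f - C c) (hle (Ideal.mem_sup_right (Ideal.mem_span_singleton_self _)))
      rw [map_sub, eval_C, sub_eq_zero] at h2
      exact h2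
    have h1 : (1 : MvPolynomial σ ℂ) ∈ p ⊔ Ideal.span {f - C c} := by
      rw [htop]
      trivial
    obtain ⟨q, hq, r, hr, e⟩ := Submodule.mem_sup.1 h1
    obtain ⟨g, rfl⟩ := Ideal.mem_span_singleton'.1 hr
    refine ⟨Ideal.Quotient.mk p g, ?_⟩
    rw [← map_mul, ← map_one (Ideal.Quotient.mk p), ← e, map_add,
      Ideal.Quotient.eq_zero_iff_mem.2 hq, zero_add]
  choose! g hg using hunit
  let x : K := algebraMap D K (Ideal.Quotient.mk p f)
  have hx : Transcendental ℂ x := by
    intro hx
    obtain ⟨c, hc⟩ := exists_alg_eq hx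
    apply hf c
    rw [← Ideal.Quotient.eq_zero_iff_mem, map_sub, sub_eq_zero]
    apply IsFractionRing.injective D K
    show x = algebraMap D K (Ideal.Quotient.mk p (C c))
    rw [← hc]
    rfl
  have hli : LinearIndependent ℂ (fun c : N => g c) := by
    refine linInd_inv hx N g ?_
    intro c hc
    have h4 := congrArg (algebraMap D K) (hg c hc)
    rw [map_mul, map_one, map_sub, map_sub] at h4
    exact h4
  have hrank : Module.rank ℂ D ≤ ℵ₀ := by
    have h1 : Module.rank ℂ D ≤ Module.rank ℂ (MvPolynomial σ ℂ) :=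
      LinearMap.rank_le_of_surjective (Ideal.Quotient.mkₐ ℂ p).toLinearMap
        (Ideal.Quotient.mkₐ_surjective ℂ p)
    refine h1.trans ?_
    rw [← (basisMonomials σ ℂ).mk_eq_rank'']
    exact mk_le_aleph0
  have h2 : #N ≤ ℵ₀ := hli.cardinal_le_rank.trans hrank
  exact Cardinal.le_aleph0_iff_set_countable.1 h2

/-- A polynomial function which takes countably many values on an algebraic set takes finitely
many values there. -/
theorem finite_of_countable {σ : Type} [Finite σ] (S : Set (MvPolynomial σ ℂ))
    (f : MvPolynomial σ ℂ) (h : ((fun a => eval a f) '' Zeros S).Countable) :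
    ((fun a => eval a f) '' Zeros S).Finite := by
  classical
  let I := Ideal.span S
  have hfin : I.minimalPrimes.Finite := Ideal.finite_minimalPrimes_of_isNoetherianRing _ I
  let cst : Ideal (MvPolynomial σ ℂ) → ℂ := fun p =>
    if hp : ∃ c : ℂ, f - C c ∈ p then Classical.choose hp else 0
  refine (hfin.image cst).subset ?_
  rintro _ ⟨a, ha, rfl⟩
  let m : Ideal (MvPolynomial σ ℂ) := RingHom.ker (eval a)
  have hIm : I ≤ m := Ideal.span_le.2 fun g hg => ha g hg
  have : m.IsPrime := RingHom.ker_isPrime _
  obtain ⟨p, hp, hpm⟩ := Ideal.exists_minimalPrimes_le hIm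
  refine ⟨p, hp, ?_⟩
  have hprime : p.IsPrime := hp.1.1
  by_cases hc : ∃ c : ℂ, f - C c ∈ p
  · have h1 : f - C (cst p) ∈ p := by
      have : cst p = Classical.choose hc := dif_pos hc
      rw [this]
      exact Classical.choose_spec hc
    have h2 : eval a (f - C (cst p)) = 0 := hpm h1
    rw [map_sub, eval_C, sub_eq_zero] at h2
    exact h2.symm
  · push Not at hc
    exfalso
    have h1 := countable_nonvalues p f hc
    have h2 : (Set.univ : Set ℂ).Countable := by
      refine (h1.union h).mono ?_
      intro c _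
      by_cases hcv : ∀ a ∈ Zeros (p : Set (MvPolynomial σ ℂ)), eval a f ≠ c
      · exact Or.inl hcv
      · push Not at hcv
        obtain ⟨b, hb, e⟩ := hcv
        refine Or.inr ⟨b, fun g hg => hb g (hp.1.2 (Ideal.subset_span hg)), e⟩
    exact not_countable_complex h2

end Pool.Agent.R697.LD
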