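import Pool.Agent.R697.LD.FinLemma
import Pool.Agent.R697.LD.Bridge

/-!
# Slices of orbits of the automorphism group of a complex algebra are finite
-/

set_option autoImplicit false

namespace Pool.Agent.R697.LD

open MvPolynomial NormedSpace Filter Topology

universe u v

/-! ### Polynomial functions -/

/-- Polynomial functions. -/
def IsPoly {σ : Type} (f : (σ → ℂ) → ℂ) : Prop := ∃ p : MvPolynomial σ ℂ, ∀ a, eval a p = f a

section Poly

variable {σ : Type}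

theorem IsPoly.const (c : ℂ) : IsPoly (σ := σ) (fun _ => c) := ⟨C c, fun _ => eval_C c⟩

theorem IsPoly.coord (i : σ) : IsPoly (fun a : σ → ℂ => a i) := ⟨X i, fun _ => eval_X i⟩

theorem IsPoly.add {f g : (σ → ℂ) → ℂ} (hf : IsPoly f) (hg : IsPoly g) :
    IsPoly (fun a => f a + g a) := by
  obtain ⟨p, hp⟩ := hf
  obtain ⟨q, hq⟩ := hg
  exact ⟨p + q, fun a => by rw [map_add, hp, hq]⟩

theorem IsPoly.sub {f g : (σ → ℂ) → ℂ} (hf : IsPoly f) (hg : IsPoly g) :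
    IsPoly (fun a => f a - g a) := by
  obtain ⟨p, hp⟩ := hf
  obtain ⟨q, hq⟩ := hg
  exact ⟨p - q, fun a => by rw [map_sub, hp, hq]⟩

theorem IsPoly.mul {f g : (σ → ℂ) → ℂ} (hf : IsPoly f) (hg : IsPoly g) :
    IsPoly (fun a => f a * g a) := by
  obtain ⟨p, hp⟩ := hf
  obtain ⟨q, hq⟩ := hg
  exact ⟨p * q, fun a => by rw [map_mul, hp, hq]⟩

theorem IsPoly.sum {ι : Type*} (s : Finset ι) {f : ι → (σ → ℂ) → ℂ} (hf : ∀ i, IsPoly (f i)) :
    IsPoly (fun a => ∑ i ∈ s, f i a) := by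
  choose p hp using hf
  refine ⟨∑ i ∈ s, p i, fun a => ?_⟩
  rw [map_sum]
  exact Finset.sum_congr rfl fun i _ => hp i a

theorem IsPoly.det {n : ℕ} {f : Fin n → Fin n → (σ → ℂ) → ℂ} (hf : ∀ i j, IsPoly (f i j)) :
    IsPoly (fun a => (Matrix.of fun i j => f i j a).det) := by
  choose p hp using hf
  refine ⟨(Matrix.of fun i j => p i j).det, fun a => ?_⟩
  rw [RingHom.map_det]
  congr 1
  ext i j
  exact hp i j a

/-- A linear function of a vector with polynomial coordinates. -/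
theorem IsPoly.linear {n : ℕ} {F : (σ → ℂ) → (Fin n → ℂ)} (hF : ∀ k, IsPoly (fun a => F a k))
    (L : (Fin n → ℂ) →ₗ[ℂ] ℂ) : IsPoly (fun a => L (F a)) := by
  have : (fun a => L (F a)) = fun a => ∑ k, F a k * L (Pi.single k 1) := by
    funext a
    conv_lhs => rw [← Finset.univ_sum_single (F a)]
    rw [map_sum]
    refine Finset.sum_congr rfl fun k _ => ?_
    rw [← smul_eq_mul, ← map_smul]
    congr 1
    rw [← Pi.single_smul, smul_eq_mul, mul_one]
  rw [this]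
  exact IsPoly.sum _ fun k => (hF k).mul (IsPoly.const _)

/-- A bilinear function of vectors with polynomial coordinates. -/
theorem IsPoly.bilinear {n : ℕ} {F G : (σ → ℂ) → (Fin n → ℂ)} (hF : ∀ k, IsPoly (fun a => F a k))
    (hG : ∀ k, IsPoly (fun a => G a k)) (L : (Fin n → ℂ) →ₗ[ℂ] (Fin n → ℂ) →ₗ[ℂ] ℂ) :
    IsPoly (fun a => L (F a) (G a)) := by
  have : (fun a => L (F a) (G a)) = fun a => ∑ k, F a k * L (Pi.single k 1) (G a) := by
    funext a
    conv_lhs => rw [← Finset.univ_sum_single (F a)]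
    rw [map_sum, LinearMap.sum_apply]
    refine Finset.sum_congr rfl fun k _ => ?_
    rw [← smul_eq_mul, ← LinearMap.smul_apply, ← map_smul]
    congr 2
    rw [← Pi.single_smul, smul_eq_mul, mul_one]
  rw [this]
  exact IsPoly.sum _ fun k => (hF k).mul (IsPoly.linear hG _)

/-- A polynomial map which takes countably many values on an algebraic set takes finitely many
values there. -/
theorem finite_image [Finite σ] {ι : Type*} {g : ι → (σ → ℂ) → ℂ} (hg : ∀ i, IsPoly (g i)) {n : ℕ}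
    {F : (σ → ℂ) → (Fin n → ℂ)} (hF : ∀ k, IsPoly (fun a => F a k))
    (h : (F '' {a | ∀ i, g i a = 0}).Countable) : (F '' {a | ∀ i, g i a = 0}).Finite := by
  choose p hp using hg
  choose q hq using hF
  have hZ : Zeros (Set.range p) = {a | ∀ i, g i a = 0} := by
    ext a
    constructor
    · intro ha i
      have := ha (p i) ⟨i, rfl⟩
      rwa [hp] at this
    · rintro ha _ ⟨i, rfl⟩
      rw [hp]
      exact ha i
  have h1 : ∀ k, ((fun a => eval a (q k)) '' Zeros (Set.range p)).Finite := by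
    intro k
    refine finite_of_countable _ _ ?_
    have e : (fun a => eval a (q k)) '' Zeros (Set.range p) =
        (fun v : Fin n → ℂ => v k) '' (F '' {a | ∀ i, g i a = 0}) := by
      rw [← Set.image_comp, hZ]
      refine Set.image_congr fun a _ => ?_
      exact hq k a
    rw [e]
    exact h.image _
  refine (Set.Finite.pi h1).subset ?_
  rintro _ ⟨a, ha, rfl⟩
  rw [Set.mem_univ_pi]
  intro k
  refine ⟨a, ?_, hq k a⟩
  rw [hZ]
  exact ha

end Poly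

/-! ### The values of the derivations -/

section Dval

variable {𝕜 : Type u} [RCLike 𝕜] {V : Type v} [NormedAddCommGroup V] [NormedSpace 𝕜 V]

/-- The space of the values of the derivations at `x`. -/
def dval (m : V →ₗ[𝕜] V →ₗ[𝕜] V) (x : V) : Submodule 𝕜 V where
  carrier := {y | ∃ D : V →L[𝕜] V, IsDerivation m D ∧ D x = y}
  add_mem' := by
    rintro _ _ ⟨D, hD, rfl⟩ ⟨F, hF, rfl⟩
    refine ⟨D + F, fun a b => ?_, rfl⟩
    simp only [add_apply, map_add, LinearMap.add_apply, hD a b, hF a b]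
    abel
  zero_mem' := ⟨0, fun a b => by simp, rfl⟩
  smul_mem' := by
    rintro c _ ⟨D, hD, rfl⟩
    refine ⟨c • D, fun a b => ?_, rfl⟩
    simp only [smul_apply, map_smul, LinearMap.smul_apply, hD a b, smul_add]

theorem IsAutomorphism.exists_inv [FiniteDimensional 𝕜 V] {m : V →ₗ[𝕜] V →ₗ[𝕜] V}
    {φ : V →L[𝕜] V} (hφ : IsAutomorphism m φ) :
    ∃ g : V →L[𝕜] V, IsAutomorphism m g ∧ (∀ x, g (φ x) = x) ∧ ∀ x, φ (g x) = x := by
  let e : V ≃ₗ[𝕜] V := LinearEquiv.ofBijective (φ : V →ₗ[𝕜] V) hφ.1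
  have h1 : ∀ x, e.symm (φ x) = x := fun x => e.symm_apply_apply x
  have h2 : ∀ x, φ (e.symm x) = x := fun x => e.apply_symm_apply x
  refine ⟨LinearMap.toContinuousLinearMap (e.symm : V →ₗ[𝕜] V), ⟨e.symm.bijective, ?_⟩, h1, h2⟩
  intro x y
  show e.symm (m x y) = m (e.symm x) (e.symm y)
  apply hφ.1.1
  rw [h2, hφ.2, h2, h2]

theorem IsAutomorphism.comp {m : V →ₗ[𝕜] V →ₗ[𝕜] V} {φ ψ : V →L[𝕜] V}
    (hφ : IsAutomorphism m φ) (hψ : IsAutomorphism m ψ) : IsAutomorphism m (φ.comp ψ) :=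
  ⟨hφ.1.comp hψ.1, fun x y => by
    show φ (ψ (m x y)) = m (φ (ψ x)) (φ (ψ y))
    rw [hψ.2, hφ.2]⟩

theorem finrank_dval_le [FiniteDimensional 𝕜 V] {m : V →ₗ[𝕜] V →ₗ[𝕜] V}
    {φ : V →L[𝕜] V} (hφ : IsAutomorphism m φ) (x : V) :
    Module.finrank 𝕜 (dval m (φ x)) ≤ Module.finrank 𝕜 (dval m x) := by
  obtain ⟨g, hg, h1, h2⟩ := hφ.exists_inv
  have hle : dval m (φ x) ≤ (dval m x).map (φ : V →ₗ[𝕜] V) := by
    rintro _ ⟨D, hD, rfl⟩
    refine ⟨g (D (φ x)), ⟨g.comp (D.comp φ), fun a b => ?_, rfl⟩, h2 _⟩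
    show g (D (φ (m a b))) = m (g (D (φ a))) b + m a (g (D (φ b)))
    rw [hφ.2, hD, map_add, hg.2, hg.2, h1, h1]
  exact (Submodule.finrank_mono hle).trans (Submodule.finrank_map_le _ _)

end Dval

/-! ### Automorphisms near the identity -/

section Near

variable {V : Type v} [NormedAddCommGroup V] [NormedSpace ℂ V] [FiniteDimensional ℂ V]

theorem near_val_C (m : V →ₗ[ℂ] V →ₗ[ℂ] V) {ε : ℝ} (hε : 0 < ε) :
    ∃ δ > 0, ∀ h : V →L[ℂ] V, IsAutomorphism m h → ‖h - 1‖ < δ →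
      ∀ y, ∃ w ∈ dval m y, ‖h y - y - w‖ ≤ ε * ‖h y - y‖ := by
  let _ : NormedSpace ℝ V := NormedSpace.restrictScalars ℝ ℂ V
  have : IsScalarTower ℝ ℂ V := inferInstance
  have : FiniteDimensional ℝ V := FiniteDimensional.trans ℝ ℂ V
  have : CompleteSpace V := FiniteDimensional.complete ℝ V
  obtain ⟨δ, hδ, hn⟩ := near_val (mr m) (Jr ℂ V) hε
  refine ⟨δ, hδ, fun h hA hh y => ?_⟩
  obtain ⟨w, hw, hb⟩ := hn (h.restrictScalars ℝ) ((isAut_iff m h).1 hA) (by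
    have : ‖(h - 1).restrictScalars ℝ‖ = ‖h - 1‖ := ContinuousLinearMap.norm_restrictScalars _
    rw [← this] at hh
    exact hh) y
  obtain ⟨D, hD, e⟩ := mem_val.1 hw
  exact ⟨w, ⟨ofR D hD.2, (isDer_iff m _).2 hD, e⟩, hb⟩

theorem local_const (m : V →ₗ[ℂ] V →ₗ[ℂ] V) {r : ℕ} (Λ : V →ₗ[ℂ] (Fin r → ℂ)) (z : V)
    (hinj : ∀ w ∈ dval m z, Λ w = 0 → w = 0) :
    ∃ δ > 0, ∀ h : V →L[ℂ] V, IsAutomorphism m h → ‖h - 1‖ < δ → Λ (h z) = Λ z → h z = z := by
  have hker : (Λ.domRestrict (dval m z)).ker = ⊥ := by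
    rw [LinearMap.ker_eq_bot']
    intro w hw
    exact Subtype.ext (hinj w.1 w.2 hw)
  obtain ⟨K, hK, hanti⟩ := LinearMap.exists_antilipschitzWith _ hker
  have hK' : ∀ w ∈ dval m z, ‖w‖ ≤ K * ‖Λ w‖ := by
    intro w hw
    have := hanti.le_mul_dist ⟨w, hw⟩ 0
    rw [dist_zero_right, map_zero, dist_zero_right] at this
    exact this
  let Λ' : V →L[ℂ] (Fin r → ℂ) := LinearMap.toContinuousLinearMap Λ
  have hC : ∀ v, ‖Λ v‖ ≤ ‖Λ'‖ * ‖v‖ := fun v => Λ'.le_opNorm v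
  have hpos : (0 : ℝ) < 2 * (K * ‖Λ'‖ + 1) := by positivity
  obtain ⟨δ, hδ, hn⟩ := near_val_C m (ε := 1 / (2 * (K * ‖Λ'‖ + 1))) (by positivity)
  refine ⟨δ, hδ, fun h hA hh hΛ => ?_⟩
  obtain ⟨w, hw, hb⟩ := hn h hA hh z
  have h1 : ‖w‖ ≤ K * (‖Λ'‖ * ‖h z - z - w‖) := by
    refine (hK' w hw).trans ?_
    gcongr
    have e : Λ w = -Λ (h z - z - w) := by
      rw [map_sub, map_sub, hΛ, sub_self, zero_sub, neg_neg]
    rw [e, norm_neg]
    exact hC _
  have h2 : ‖h z - z‖ ≤ ‖w‖ + ‖h z - z - w‖ := by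
    have e : h z - z = w + (h z - z - w) := by abel
    calc ‖h z - z‖ = ‖w + (h z - z - w)‖ := by rw [← e]
      _ ≤ _ := norm_add_le _ _
  have h3 : ‖h z - z‖ ≤ (K * ‖Λ'‖ + 1) * ‖h z - z - w‖ := by
    calc ‖h z - z‖ ≤ ‖w‖ + ‖h z - z - w‖ := h2
      _ ≤ K * (‖Λ'‖ * ‖h z - z - w‖) + ‖h z - z - w‖ := by gcongr
      _ = _ := by ring
  have h4 : ‖h z - z‖ ≤ 1 / 2 * ‖h z - z‖ := by
    calc ‖h z - z‖ ≤ (K * ‖Λ'‖ + 1) * ‖h z - z - w‖ := h3
      _ ≤ (K * ‖Λ'‖ + 1) * (1 / (2 * (K * ‖Λ'‖ + 1)) * ‖h z - z‖) := by gcongr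
      _ = 1 / 2 * ‖h z - z‖ := by
        have : (K * ‖Λ'‖ + 1 : ℝ) ≠ 0 := by positivity
        field_simp
  have h5 : ‖h z - z‖ ≤ 0 := by linarith
  exact sub_eq_zero.1 (norm_le_zero_iff.1 h5)

end Near

/-! ### Slices of orbits -/

section Slice

variable {n : ℕ}

/-- The matrix with given entries. -/
def mat (n : ℕ) (a : Option (Fin n × Fin n) → ℂ) : Matrix (Fin n) (Fin n) ℂ :=
  Matrix.of fun i j => a (some (i, j))

/-- The operator with given matrix entries. -/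
noncomputable def op (n : ℕ) :
    (Option (Fin n × Fin n) → ℂ) →ₗ[ℂ] ((Fin n → ℂ) →L[ℂ] (Fin n → ℂ)) where
  toFun a := LinearMap.toContinuousLinearMap (Matrix.toLin' (mat n a))
  map_add' a b := by
    ext v k
    show (mat n (a + b)).mulVec _ k = (mat n a).mulVec _ k + (mat n b).mulVec _ k
    rw [← Pi.add_apply, ← Matrix.add_mulVec]
    rfl
  map_smul' c a := by
    ext v k
    show (mat n (c • a)).mulVec _ k = c • (mat n a).mulVec _ k
    rw [← Pi.smul_apply, ← Matrix.smul_mulVec]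
    rfl

theorem op_apply (a : Option (Fin n × Fin n) → ℂ) (v : Fin n → ℂ) (k : Fin n) :
    op n a v k = ∑ j, a (some (k, j)) * v j := rfl

theorem continuous_op : Continuous (op n) := (op n).continuous_of_finiteDimensional

theorem op_bijective {a : Option (Fin n × Fin n) → ℂ} (ha : (mat n a).det ≠ 0) :
    Function.Bijective (op n a) := by
  have hu : IsUnit (mat n a).det := isUnit_iff_ne_zero.2 ha
  have h1 : ∀ v, (mat n a).mulVec ((mat n a)⁻¹.mulVec v) = v := fun v => by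
    rw [Matrix.mulVec_mulVec, Matrix.mul_nonsing_inv _ hu, Matrix.one_mulVec]
  have h2 : ∀ v, (mat n a)⁻¹.mulVec ((mat n a).mulVec v) = v := fun v => by
    rw [Matrix.mulVec_mulVec, Matrix.nonsing_inv_mul _ hu, Matrix.one_mulVec]
  exact ⟨Function.LeftInverse.injective h2, Function.RightInverse.surjective h1⟩

/-- The entries of an operator. -/
noncomputable def entries (φ : (Fin n → ℂ) →L[ℂ] (Fin n → ℂ)) (s : ℂ) :
    Option (Fin n × Fin n) → ℂ
  | none => s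
  | some (i, j) => LinearMap.toMatrix' (φ : (Fin n → ℂ) →ₗ[ℂ] (Fin n → ℂ)) i j

theorem mat_entries (φ : (Fin n → ℂ) →L[ℂ] (Fin n → ℂ)) (s : ℂ) :
    mat n (entries φ s) = LinearMap.toMatrix' (φ : (Fin n → ℂ) →ₗ[ℂ] (Fin n → ℂ)) := rfl

theorem op_entries (φ : (Fin n → ℂ) →L[ℂ] (Fin n → ℂ)) (s : ℂ) : op n (entries φ s) = φ := by
  ext v k
  show Matrix.toLin' (mat n (entries φ s)) _ k = _
  rw [mat_entries, Matrix.toLin'_toMatrix']
  rfl

theorem det_ne_zero_of_bijective {φ : (Fin n → ℂ) →L[ℂ] (Fin n → ℂ)}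
    (h : Function.Bijective φ) :
    (LinearMap.toMatrix' (φ : (Fin n → ℂ) →ₗ[ℂ] (Fin n → ℂ))).det ≠ 0 := by
  rw [LinearMap.det_toMatrix']
  let e : (Fin n → ℂ) ≃ₗ[ℂ] (Fin n → ℂ) :=
    LinearEquiv.ofBijective (φ : (Fin n → ℂ) →ₗ[ℂ] (Fin n → ℂ)) h
  have := e.isUnit_det'
  exact this.ne_zero

variable {r : ℕ}

/-- The slice matrix. -/
noncomputable def sm (Λ : (Fin n → ℂ) →ₗ[ℂ] (Fin r → ℂ)) (D : Fin r → ((Fin n → ℂ) →L[ℂ] (Fin n → ℂ)))
    (z : Fin n → ℂ) : Matrix (Fin r) (Fin r) ℂ := Matrix.of fun i j => Λ (D j z) i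

/-- The index type of the equations. -/
abbrev EqIdx (n r : ℕ) : Type := ((Fin n → ℂ) × (Fin n → ℂ) × Fin n) ⊕ Fin r ⊕ Unit

/-- The equations for the automorphisms mapping `x` into the slice. -/
noncomputable def eqs (M : (Fin n → ℂ) →ₗ[ℂ] (Fin n → ℂ) →ₗ[ℂ] (Fin n → ℂ)) (x η : Fin n → ℂ)
    (Λ : (Fin n → ℂ) →ₗ[ℂ] (Fin r → ℂ)) (D : Fin r → ((Fin n → ℂ) →L[ℂ] (Fin n → ℂ))) :
    EqIdx n r → (Option (Fin n × Fin n) → ℂ) → ℂ
  | .inl (u, v, k), a => op n a (M u v) k - M (op n a u) (op n a v) k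
  | .inr (.inl i), a => Λ (op n a x) i - Λ η i
  | .inr (.inr _), a => a none * ((mat n a).det * (sm Λ D (op n a x)).det) - 1

theorem isPoly_op (v : Fin n → ℂ) (k : Fin n) :
    IsPoly (fun a : Option (Fin n × Fin n) → ℂ => op n a v k) := by
  simp only [op_apply]
  exact IsPoly.sum _ fun j => (IsPoly.coord _).mul (IsPoly.const _)

theorem isPoly_eqs (M : (Fin n → ℂ) →ₗ[ℂ] (Fin n → ℂ) →ₗ[ℂ] (Fin n → ℂ)) (x η : Fin n → ℂ)
    (Λ : (Fin n → ℂ) →ₗ[ℂ] (Fin r → ℂ)) (D : Fin r → ((Fin n → ℂ) →L[ℂ] (Fin n → ℂ)))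
    (i : EqIdx n r) : IsPoly (eqs M x η Λ D i) := by
  rcases i with ⟨u, v, k⟩ | i | i
  · refine (isPoly_op _ _).sub ?_
    exact IsPoly.bilinear (isPoly_op u) (isPoly_op v) (M.compr₂ (LinearMap.proj k))
  · refine IsPoly.sub ?_ (IsPoly.const _)
    exact IsPoly.linear (isPoly_op x) ((LinearMap.proj i).comp Λ)
  · refine IsPoly.sub ((IsPoly.coord _).mul (IsPoly.mul ?_ ?_)) (IsPoly.const _)
    · exact IsPoly.det fun i j => IsPoly.coord _
    · exact IsPoly.det fun i j => IsPoly.linear (isPoly_op x)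
        (((LinearMap.proj i).comp Λ).comp (D j : (Fin n → ℂ) →ₗ[ℂ] (Fin n → ℂ)))

theorem inj_of_det {M : (Fin n → ℂ) →ₗ[ℂ] (Fin n → ℂ) →ₗ[ℂ] (Fin n → ℂ)}
    {Λ : (Fin n → ℂ) →ₗ[ℂ] (Fin r → ℂ)} {D : Fin r → ((Fin n → ℂ) →L[ℂ] (Fin n → ℂ))}
    (hD : ∀ j, IsDerivation M (D j)) {z : Fin n → ℂ}
    (hdim : Module.finrank ℂ (dval M z) ≤ r) (hdet : (sm Λ D z).det ≠ 0) :
    ∀ w ∈ dval M z, Λ w = 0 → w = 0 := by
  let Λ' : dval M z →ₗ[ℂ] (Fin r → ℂ) := Λ.domRestrict (dval M z)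
  have hsurj : Function.Surjective Λ' := by
    intro t
    have hu : IsUnit (sm Λ D z).det := isUnit_iff_ne_zero.2 hdet
    let c : Fin r → ℂ := (sm Λ D z)⁻¹.mulVec t
    have hc : (sm Λ D z).mulVec c = t := by
      rw [Matrix.mulVec_mulVec, Matrix.mul_nonsing_inv _ hu, Matrix.one_mulVec]
    refine ⟨⟨∑ j, c j • D j z, Submodule.sum_mem _ fun j _ =>
      Submodule.smul_mem _ _ ⟨D j, hD j, rfl⟩⟩, ?_⟩
    show Λ (∑ j, c j • D j z) = t
    rw [← hc, map_sum]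
    ext i
    rw [Finset.sum_apply]
    show _ = ∑ j, Λ (D j z) i * c j
    refine Finset.sum_congr rfl fun j _ => ?_
    rw [map_smul, Pi.smul_apply, smul_eq_mul, mul_comm]
  have h1 : Module.finrank ℂ (dval M z) = Module.finrank ℂ (Fin r → ℂ) := by
    refine le_antisymm ?_ ?_
    · simpa using hdim
    · exact LinearMap.finrank_le_finrank_of_surjective hsurj
  have hinj : Function.Injective Λ' :=
    (LinearMap.injective_iff_surjective_of_finrank_eq_finrank h1).2 hsurj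
  intro w hw h0
  have : (⟨w, hw⟩ : dval M z) = 0 := hinj (by
    rw [map_zero]
    exact h0)
  exact congrArg Subtype.val this

/-- **Slices of orbits are finite.** -/
theorem finite_slice (M : (Fin n → ℂ) →ₗ[ℂ] (Fin n → ℂ) →ₗ[ℂ] (Fin n → ℂ)) (x η : Fin n → ℂ)
    (Λ : (Fin n → ℂ) →ₗ[ℂ] (Fin r → ℂ)) (D : Fin r → ((Fin n → ℂ) →L[ℂ] (Fin n → ℂ)))
    (hD : ∀ j, IsDerivation M (D j)) (hdim : Module.finrank ℂ (dval M x) ≤ r) :
    {z | (∃ φ : (Fin n → ℂ) →L[ℂ] (Fin n → ℂ), IsAutomorphism M φ ∧ z = φ x) ∧ Λ z = Λ η ∧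
      (sm Λ D z).det ≠ 0}.Finite := by
  set Z : Set (Option (Fin n × Fin n) → ℂ) := {a | ∀ i, eqs M x η Λ D i a = 0} with hZ
  have hZaut : ∀ a ∈ Z, IsAutomorphism M (op n a) := by
    intro a ha
    have h1 := ha (.inr (.inr ()))
    have h2 : a none * ((mat n a).det * (sm Λ D (op n a x)).det) = 1 := sub_eq_zero.1 h1
    refine ⟨op_bijective fun h0 => ?_, fun u v => ?_⟩
    · rw [h0, zero_mul, mul_zero] at h2
      exact zero_ne_one h2
    · ext k
      exact sub_eq_zero.1 (ha (.inl (u, v, k)))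
  have hZΛ : ∀ a ∈ Z, Λ (op n a x) = Λ η := by
    intro a ha
    ext i
    exact sub_eq_zero.1 (ha (.inr (.inl i)))
  have hZdet : ∀ a ∈ Z, (sm Λ D (op n a x)).det ≠ 0 := by
    intro a ha h0
    have h1 := ha (.inr (.inr ()))
    have h2 : a none * ((mat n a).det * (sm Λ D (op n a x)).det) = 1 := sub_eq_zero.1 h1
    rw [h0, mul_zero, mul_zero] at h2
    exact zero_ne_one h2
  -- local constancy
  have hloc : ∀ a ∈ Z, ∃ U ∈ 𝓝 a, ∀ a' ∈ U, a' ∈ Z → op n a' x = op n a x := by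
    intro a ha
    have hA := hZaut a ha
    obtain ⟨g, hg, h1, h2⟩ := hA.exists_inv
    have hdimz : Module.finrank ℂ (dval M (op n a x)) ≤ r := (finrank_dval_le hA x).trans hdim
    obtain ⟨δ, hδ, hloc⟩ := local_const M Λ (op n a x) (inj_of_det hD hdimz (hZdet a ha))
    have hcont : Continuous fun a' => (op n a').comp g :=
      (ContinuousLinearMap.compL ℂ _ _ _).flip g |>.continuous.comp continuous_op
    have hlim : (op n a).comp g = 1 := by
      ext v k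
      show op n a (g _) k = _
      rw [h2]
      rfl
    refine ⟨(fun a' => (op n a').comp g) ⁻¹' Metric.ball 1 δ, ?_, fun a' ha' haZ => ?_⟩
    · refine hcont.continuousAt.preimage_mem_nhds ?_
      rw [hlim]
      exact Metric.ball_mem_nhds _ hδ
    · have h3 := hloc ((op n a').comp g) ((hZaut a' haZ).comp hg) (by
        rw [← dist_eq_norm]
        exact ha')
      have e : ((op n a').comp g) (op n a x) = op n a' x := by
        show op n a' (g (op n a x)) = op n a' x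
        rw [h1]
      rw [e] at h3
      exact h3 (by rw [hZΛ a' haZ, hZΛ a ha])
  have hcount : ((fun a => op n a x) '' Z).Countable := by
    let s : (Fin n → ℂ) → Set Z := fun w => {a | op n a.1 x = w}
    refine Set.PairwiseDisjoint.countable_of_isOpen (s := s) ?_ ?_ ?_
    · intro w _ w' _ hne
      rw [Function.onFun, Set.disjoint_left]
      intro a ha ha'
      exact hne (ha.symm.trans ha')
    · intro w _
      rw [isOpen_iff_mem_nhds]
      intro a ha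
      obtain ⟨U, hU, hloc⟩ := hloc a.1 a.2
      have h1 : ((↑) : Z → _) ⁻¹' U ∈ 𝓝 a := continuous_subtype_val.continuousAt hU
      filter_upwards [h1] with a' ha'
      exact (hloc a'.1 ha' a'.2).trans ha
    · rintro w ⟨a, ha, rfl⟩
      exact ⟨⟨a, ha⟩, rfl⟩
  have hfin := finite_image (isPoly_eqs M x η Λ D) (isPoly_op x) hcount
  refine hfin.subset ?_
  rintro z ⟨⟨φ, hφ, rfl⟩, hΛ, hdet⟩
  let d : ℂ := (LinearMap.toMatrix' (φ : (Fin n → ℂ) →ₗ[ℂ] (Fin n → ℂ))).det *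
    (sm Λ D (φ x)).det
  have hd : d ≠ 0 := mul_ne_zero (det_ne_zero_of_bijective hφ.1) hdet
  refine ⟨entries φ d⁻¹, ?_, ?_⟩
  · rintro (⟨u, v, k⟩ | i | i)
    · show op n _ (M u v) k - M (op n _ u) (op n _ v) k = 0
      rw [op_entries, hφ.2, sub_self]
    · show Λ (op n _ x) i - Λ η i = 0
      rw [op_entries, hΛ, sub_self]
    · show d⁻¹ * ((mat n _).det * (sm Λ D (op n _ x)).det) - 1 = 0
      rw [op_entries, mat_entries, inv_mul_cancel₀ hd, sub_self]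
  · show op n (entries φ d⁻¹) x = φ x
    rw [op_entries]

end Slice

end Pool.Agent.R697.LD
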