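import Pool.Agent.R697.LD.Aut

/-!
# One-parameter groups of local automorphisms are generated by local derivations
-/

set_option autoImplicit false

namespace Pool.Agent.R697.LD

open NormedSpace Filter Topology Set

universe u

variable {E : Type u} [NormedAddCommGroup E] [NormedSpace ℝ E] [FiniteDimensional ℝ E]
  {m : E →L[ℝ] E →L[ℝ] E} {J : E →L[ℝ] E}

/-- `y` lies in the orbit of `x` under the automorphism group. -/
def Orb (m : E →L[ℝ] E →L[ℝ] E) (J : E →L[ℝ] E) (x y : E) : Prop := ∃ h, IsAut m J h ∧ y = h x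

/-- Pairs of mutually inverse automorphisms of norm at most `n`. -/
def KP (m : E →L[ℝ] E →L[ℝ] E) (J : E →L[ℝ] E) (n : ℕ) : Set ((E →L[ℝ] E) × (E →L[ℝ] E)) :=
  {p | p.1 * p.2 = 1 ∧ p.2 * p.1 = 1 ∧ (∀ x y, p.1 (m x y) = m (p.1 x) (p.1 y)) ∧
    (∀ x, p.1 (J x) = J (p.1 x)) ∧ ‖p‖ ≤ n}

omit [FiniteDimensional ℝ E] in
theorem isClosed_KP (n : ℕ) : IsClosed (KP m J n) := by
  have e : KP m J n = {p | p.1 * p.2 = 1} ∩ {p | p.2 * p.1 = 1} ∩
      (⋂ x, ⋂ y, {p : (E →L[ℝ] E) × (E →L[ℝ] E) | p.1 (m x y) = m (p.1 x) (p.1 y)}) ∩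
      (⋂ x, {p : (E →L[ℝ] E) × (E →L[ℝ] E) | p.1 (J x) = J (p.1 x)}) ∩
      {p : (E →L[ℝ] E) × (E →L[ℝ] E) | ‖p‖ ≤ n} := by
    ext p
    simp only [KP, mem_ofPred_eq, mem_inter_iff, mem_iInter]
    tauto
  have hev : ∀ x : E, Continuous fun p : (E →L[ℝ] E) × (E →L[ℝ] E) => p.1 x := fun x =>
    (ContinuousLinearMap.apply ℝ E x).continuous.comp continuous_fst
  rw [e]
  refine ((((isClosed_eq ?_ ?_).inter (isClosed_eq ?_ ?_)).inter ?_).inter ?_).inter ?_
  · exact continuous_fst.mul continuous_snd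
  · exact continuous_const
  · exact continuous_snd.mul continuous_fst
  · exact continuous_const
  · refine isClosed_iInter fun x => isClosed_iInter fun y => isClosed_eq (hev _) ?_
    exact (m.continuous.comp (hev x)).clm_apply (hev y)
  · refine isClosed_iInter fun x => isClosed_eq (hev _) ?_
    exact J.continuous.comp (hev x)
  · exact isClosed_le continuous_norm continuous_const

theorem isCompact_KP (n : ℕ) : IsCompact (KP m J n) := by
  have : ProperSpace ((E →L[ℝ] E) × (E →L[ℝ] E)) := FiniteDimensional.proper ℝ _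
  refine Metric.isCompact_of_isClosed_isBounded (isClosed_KP n) ?_
  refine (Metric.isBounded_closedBall (x := (0 : (E →L[ℝ] E) × (E →L[ℝ] E))) (r := n)).subset ?_
  intro p hp
  rw [mem_closedBall_zero_iff]
  exact hp.2.2.2.2

omit [FiniteDimensional ℝ E] in
theorem aut_of_KP {n : ℕ} {p : (E →L[ℝ] E) × (E →L[ℝ] E)} (hp : p ∈ KP m J n) : IsAut m J p.1 :=
  ⟨⟨⟨p.1, p.2, hp.1, hp.2.1⟩, rfl⟩, hp.2.2.1, hp.2.2.2.1⟩

omit [FiniteDimensional ℝ E] in
theorem exists_KP {h : E →L[ℝ] E} (hh : IsAut m J h) : ∃ n, ∃ g, (h, g) ∈ KP m J n := by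
  obtain ⟨g, h1, h2, -⟩ := hh.exists_inv
  obtain ⟨n, hn⟩ := exists_nat_ge ‖(h, g)‖
  exact ⟨n, g, h2, h1, hh.mul, hh.comm, hn⟩

/-- If the curve `c` stays in the orbit of `x` under automorphisms of bounded norm near `t₀`, then
its velocity at `t₀` lies in `Der (c t₀)`. -/
theorem velocity_mem {c : ℝ → E} {x : E} {n : ℕ} {t₀ : ℝ} {v : E}
    (hc : ∀ᶠ t in 𝓝 t₀, ∃ p ∈ KP m J n, c t = p.1 x) (hv : HasDerivAt c v t₀) :
    v ∈ val (Der m J) (c t₀) := by
  have : CompleteSpace E := FiniteDimensional.complete ℝ E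
  -- a sequence of times
  have hseq : Tendsto (fun k : ℕ => t₀ + 1 / ((k : ℝ) + 1)) atTop (𝓝 t₀) := by
    have := tendsto_one_div_add_atTop_nhds_zero_nat (𝕜 := ℝ)
    simpa using this.const_add t₀
  obtain ⟨N, hN⟩ := (hseq.eventually hc).exists_forall_of_atTop
  have hN' : ∀ k, ∃ p ∈ KP m J n, c (t₀ + 1 / (((k + N : ℕ) : ℝ) + 1)) = p.1 x := fun k =>
    hN (k + N) (Nat.le_add_left _ _)
  choose p hp hpe using hN'
  obtain ⟨q, hq, φ, hφ, hlim⟩ := (isCompact_KP (m := m) (J := J) n).tendsto_subseq hp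
  set s : ℕ → ℝ := fun k => t₀ + 1 / (((φ k + N : ℕ) : ℝ) + 1) with hs
  have hsne : ∀ k, s k ≠ t₀ := by
    intro k h
    have h1 : (1 : ℝ) / (((φ k + N : ℕ) : ℝ) + 1) = 0 := by
      have := h
      simp only [hs] at this
      linarith
    have h2 : (0 : ℝ) < 1 / (((φ k + N : ℕ) : ℝ) + 1) := by positivity
    linarith
  have hst : Tendsto s atTop (𝓝 t₀) := by
    have h1 : Tendsto (fun k => φ k + N) atTop atTop :=
      (tendsto_add_atTop_nat N).comp hφ.tendsto_atTop
    exact hseq.comp h1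
  have hcq : c t₀ = q.1 x := by
    have h1 : Tendsto (fun k => c (s k)) atTop (𝓝 (c t₀)) := hv.continuousAt.tendsto.comp hst
    have h2 : Tendsto (fun k => (p (φ k)).1 x) atTop (𝓝 (q.1 x)) := by
      have h3 : Tendsto (fun k => (p (φ k)).1) atTop (𝓝 q.1) :=
        (continuous_fst.tendsto q).comp hlim
      exact ((ContinuousLinearMap.apply ℝ E x).continuous.tendsto q.1).comp h3
    have h4 : (fun k => c (s k)) = fun k => (p (φ k)).1 x := funext fun k => hpe (φ k)
    rw [h4] at h1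
    exact tendsto_nhds_unique h1 h2
  -- the automorphisms `u k = p_k q⁻¹`
  set u : ℕ → (E →L[ℝ] E) := fun k => (p (φ k)).1 * q.2 with hu
  have hua : ∀ k, IsAut m J (u k) := fun k =>
    (aut_of_KP (hp _)).mul' ((aut_of_KP hq).of_inv hq.2.1 hq.1)
  have hul : Tendsto u atTop (𝓝 1) := by
    have h3 : Tendsto (fun k => (p (φ k)).1) atTop (𝓝 q.1) :=
      (continuous_fst.tendsto q).comp hlim
    have h4 : Tendsto u atTop (𝓝 (q.1 * q.2)) := h3.mul_const q.2
    rwa [hq.1] at h4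
  have hux : ∀ k, u k (c t₀) = c (s k) := by
    intro k
    have e1 : q.2 (q.1 x) = x := congrArg (fun f : E →L[ℝ] E => f x) hq.2.1
    show (p (φ k)).1 (q.2 (c t₀)) = c (s k)
    rw [hcq, e1]
    exact (hpe (φ k)).symm
  -- the slopes
  have hslope : Tendsto (fun k => (s k - t₀)⁻¹ • (c (s k) - c t₀)) atTop (𝓝 v) := by
    have h1 := (hasDerivAt_iff_tendsto_slope.1 hv)
    have h2 : Tendsto s atTop (𝓝[≠] t₀) :=
      tendsto_nhdsWithin_iff.2 ⟨hst, Eventually.of_forall hsne⟩
    have h3 := h1.comp h2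
    simpa [slope_def_module, Function.comp_def] using h3
  have hcl : IsClosed (val (Der m J) (c t₀) : Set E) := Submodule.closed_of_finiteDimensional _
  rw [← SetLike.mem_coe, ← hcl.closure_eq, Metric.mem_closure_iff]
  intro ε hε
  obtain ⟨δ, hδ, hnear⟩ := near_val m J (ε := ε / (4 * (‖v‖ + 1))) (by positivity)
  have e1 : ∀ᶠ k in atTop, ‖u k - 1‖ < δ := by
    have := Metric.tendsto_atTop.1 hul δ hδ
    obtain ⟨M, hM⟩ := this
    filter_upwards [eventually_ge_atTop M] with k hk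
    simpa [dist_eq_norm] using hM k hk
  have e2 : ∀ᶠ k in atTop, ‖(s k - t₀)⁻¹ • (c (s k) - c t₀) - v‖ < min (ε / 2) 1 := by
    have := Metric.tendsto_atTop.1 hslope (min (ε / 2) 1) (by positivity)
    obtain ⟨M, hM⟩ := this
    filter_upwards [eventually_ge_atTop M] with k hk
    simpa [dist_eq_norm] using hM k hk
  obtain ⟨k, hk1, hk2⟩ := (e1.and e2).exists
  obtain ⟨w, hw, hwb⟩ := hnear (u k) (hua k) hk1 (c t₀)
  rw [hux k] at hwb
  refine ⟨(s k - t₀)⁻¹ • w, (val (Der m J) (c t₀)).smul_mem _ hw, ?_⟩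
  rw [dist_comm, dist_eq_norm]
  set a := (s k - t₀)⁻¹ • (c (s k) - c t₀) with ha
  have h1 : ‖a - (s k - t₀)⁻¹ • w‖ ≤ ε / (4 * (‖v‖ + 1)) * ‖a‖ := by
    rw [ha, ← smul_sub, norm_smul, norm_smul]
    calc ‖(s k - t₀)⁻¹‖ * ‖c (s k) - c t₀ - w‖
        ≤ ‖(s k - t₀)⁻¹‖ * (ε / (4 * (‖v‖ + 1)) * ‖c (s k) - c t₀‖) := by gcongr
      _ = _ := by ring
  have h2 : ‖a‖ ≤ ‖v‖ + 1 := by
    have : a = (a - v) + v := by abel
    calc ‖a‖ = ‖(a - v) + v‖ := by rw [← this]
      _ ≤ ‖a - v‖ + ‖v‖ := norm_add_le _ _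
      _ ≤ 1 + ‖v‖ := by
        gcongr
        exact (hk2.trans_le (min_le_right _ _)).le
      _ = _ := by ring
  have h3 : ‖a - (s k - t₀)⁻¹ • w‖ ≤ ε / 4 := by
    refine h1.trans ?_
    calc ε / (4 * (‖v‖ + 1)) * ‖a‖ ≤ ε / (4 * (‖v‖ + 1)) * (‖v‖ + 1) := by gcongr
      _ = ε / 4 := by
        have : ‖v‖ + 1 ≠ 0 := by positivity
        field_simp
  have h4 : (s k - t₀)⁻¹ • w - v = (a - v) - (a - (s k - t₀)⁻¹ • w) := by abel
  rw [h4]
  calc ‖(a - v) - (a - (s k - t₀)⁻¹ • w)‖ ≤ ‖a - v‖ + ‖a - (s k - t₀)⁻¹ • w‖ := norm_sub_le _ _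
    _ < ε / 2 + ε / 2 := by
      have := hk2.trans_le (min_le_left _ _)
      linarith
    _ = ε := by ring

/-- The rank of `Der y` is constant on orbits. -/
theorem finrank_val_aut {h : E →L[ℝ] E} (hh : IsAut m J h) (x : E) :
    Module.finrank ℝ (val (Der m J) (h x)) = Module.finrank ℝ (val (Der m J) x) := by
  obtain ⟨g, h1, h2, hg⟩ := hh.exists_inv
  have e1 : ∀ x, g (h x) = x := fun x => congrArg (fun f : E →L[ℝ] E => f x) h1
  have e2 : ∀ x, h (g x) = x := fun x => congrArg (fun f : E →L[ℝ] E => f x) h2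
  let e : E ≃ₗ[ℝ] E := LinearEquiv.ofLinearMap (h : E →ₗ[ℝ] E) (g : E →ₗ[ℝ] E)
    (LinearMap.ext e2) (LinearMap.ext e1)
  have hmap : val (Der m J) (h x) = (val (Der m J) x).map (e : E →ₗ[ℝ] E) := by
    ext y
    constructor
    · intro hy
      refine ⟨g y, ?_, e2 y⟩
      rw [← e2 y, mem_val_aut hh] at hy
      exact hy
    · rintro ⟨z, hz, rfl⟩
      exact (mem_val_aut hh x z).2 hz
  rw [hmap]
  exact e.finrank_map_eq _

/-- **If `exp(tX)` is a local automorphism for all `t` then `X` is a local derivation.** -/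
theorem mem_val_of_orb {X : E →L[ℝ] E} {x : E} (hX : ∀ t : ℝ, Orb m J x (exp (t • X) x)) :
    X x ∈ val (Der m J) x := by
  have : CompleteSpace E := FiniteDimensional.complete ℝ E
  set c : ℝ → E := fun t => exp (t • X) x with hc
  have hcd : ∀ t, HasDerivAt c (X (c t)) t := by
    intro t
    have h := exp_smul_apply_deriv X x t
    rwa [exp_smul_comm] at h
  have hcc : Continuous c := continuous_iff_continuousAt.2 fun t => (hcd t).continuousAt
  -- Baire
  let F : ℕ → Set ℝ := fun n => {t | ∃ p ∈ KP m J n, c t = p.1 x}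
  have hF : ∀ n, IsClosed (F n) := by
    intro n
    have e : F n = c ⁻¹' ((fun p : (E →L[ℝ] E) × (E →L[ℝ] E) => p.1 x) '' KP m J n) := by
      ext t
      simp only [F, mem_ofPred_eq, mem_preimage, mem_image]
      constructor
      · rintro ⟨p, hp, e⟩
        exact ⟨p, hp, e.symm⟩
      · rintro ⟨p, hp, e⟩
        exact ⟨p, hp, e.symm⟩
    rw [e]
    refine IsClosed.preimage hcc (IsCompact.isClosed ?_)
    exact (isCompact_KP n).image
      ((ContinuousLinearMap.apply ℝ E x).continuous.comp continuous_fst)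
  have hU : ⋃ n, F n = univ := by
    refine eq_univ_of_forall fun t => ?_
    obtain ⟨h, hh, e⟩ := hX t
    obtain ⟨n, g, hg⟩ := exists_KP hh
    exact mem_iUnion.2 ⟨n, (h, g), hg, e⟩
  have hdense := dense_iUnion_interior_of_closed hF hU
  have hT : ∀ t ∈ ⋃ n, interior (F n), X (c t) ∈ val (Der m J) (c t) := by
    intro t ht
    obtain ⟨n, hn⟩ := mem_iUnion.1 ht
    have : F n ∈ 𝓝 t := mem_interior_iff_mem_nhds.1 hn
    exact velocity_mem (n := n) this (hcd t)
  -- a basis of `Der x`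
  let b := Module.finBasis ℝ (val (Der m J) x)
  have hb : ∀ i, ∃ D ∈ Der m J, D x = b i := fun i => mem_val.1 (b i).2
  choose D hD hDx using hb
  let fam : E → Option (Fin (Module.finrank ℝ (val (Der m J) x))) → E := fun y o =>
    Option.casesOn' o (X y) (fun i => D i y)
  have hfc : Continuous fam := by
    refine continuous_pi fun o => ?_
    cases o with
    | none => exact X.continuous
    | some i => exact (D i).continuous
  have hopen : IsOpen {t : ℝ | LinearIndependent ℝ (fam (c t))} :=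
    (isOpen_setOfPred_linearIndependent (𝕜 := ℝ) (E := E)
      (ι := Option (Fin (Module.finrank ℝ (val (Der m J) x))))).preimage (hfc.comp hcc)
  have hdisj : ∀ t ∈ ⋃ n, interior (F n), ¬ LinearIndependent ℝ (fam (c t)) := by
    intro t ht hli
    obtain ⟨h, hh, e⟩ := hX t
    have hmem : ∀ o, fam (c t) o ∈ val (Der m J) (c t) := by
      intro o
      cases o with
      | none => exact hT t ht
      | some i => exact mem_val.2 ⟨D i, hD i, rfl⟩
    let fam' : Option (Fin (Module.finrank ℝ (val (Der m J) x))) → val (Der m J) (c t) :=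
      fun o => ⟨fam (c t) o, hmem o⟩
    have hli' : LinearIndependent ℝ fam' := by
      refine LinearIndependent.of_comp (val (Der m J) (c t)).subtype ?_
      exact hli
    have hcard := hli'.fintype_card_le_finrank
    have e' : c t = h x := e
    rw [e', finrank_val_aut hh] at hcard
    simp at hcard
  have hne : ¬ LinearIndependent ℝ (fam (c 0)) := by
    intro h0
    obtain ⟨t, ht1, ht2⟩ := hdense.inter_open_nonempty _ hopen ⟨0, h0⟩
    exact hdisj t ht2 ht1
  have hc0 : c 0 = x := by simp [hc]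
  rw [hc0] at hne
  have hfam : fam x = fun o => Option.casesOn' o (X x) (fun i => (b i : E)) := by
    funext o
    cases o with
    | none => rfl
    | some i => exact hDx i
  rw [hfam, linearIndependent_option'] at hne
  have hbli : LinearIndependent ℝ (fun i => (b i : E)) :=
    b.linearIndependent.map' (val (Der m J) x).subtype (Submodule.ker_subtype _)
  have hspan : X x ∈ Submodule.span ℝ (range fun i => (b i : E)) := by
    by_contra h
    exact hne ⟨hbli, h⟩
  refine (Submodule.span_le.2 ?_) hspan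
  rintro _ ⟨i, rfl⟩
  exact (b i).2

end Pool.Agent.R697.LD
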