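import Pool.Agent.R697.LD.Lower

/-!
# Local derivations generate one-parameter groups of local automorphisms
-/

set_option autoImplicit false

namespace Pool.Agent.R697.LD

open NormedSpace Filter Topology Set

universe u

variable {E : Type u} [NormedAddCommGroup E] [NormedSpace ℝ E]
  {m : E →L[ℝ] E →L[ℝ] E} {J : E →L[ℝ] E}

/-- `B ∘ (δ × 1) + B ∘ (1 × δ)`. -/
noncomputable def lam (δ : E →L[ℝ] E) (B : E →L[ℝ] E →L[ℝ] E) : E →L[ℝ] E →L[ℝ] E :=
  B.comp δ + (B.flip.comp δ).flip

theorem lam_apply (δ : E →L[ℝ] E) (B : E →L[ℝ] E →L[ℝ] E) (x y : E) :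
    lam δ B x y = B (δ x) y + B x (δ y) := rfl

theorem lam_sub (δ : E →L[ℝ] E) (B C : E →L[ℝ] E →L[ℝ] E) :
    lam δ B - lam δ C = lam δ (B - C) := by
  ext x y
  simp only [sub_apply, lam_apply]
  abel

theorem norm_lam_le (δ : E →L[ℝ] E) (B : E →L[ℝ] E →L[ℝ] E) :
    ‖lam δ B‖ ≤ 2 * ‖δ‖ * ‖B‖ := by
  refine ContinuousLinearMap.opNorm_le_bound₂ _ (by positivity) fun x y => ?_
  rw [lam_apply]
  have h1 : ‖B (δ x) y‖ ≤ ‖B‖ * (‖δ‖ * ‖x‖) * ‖y‖ := by
    refine (B.le_opNorm₂ _ _).trans ?_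
    gcongr
    exact δ.le_opNorm x
  have h2 : ‖B x (δ y)‖ ≤ ‖B‖ * ‖x‖ * (‖δ‖ * ‖y‖) := by
    refine (B.le_opNorm₂ _ _).trans ?_
    gcongr
    exact δ.le_opNorm y
  calc _ ≤ ‖B (δ x) y‖ + ‖B x (δ y)‖ := norm_add_le _ _
    _ ≤ ‖B‖ * (‖δ‖ * ‖x‖) * ‖y‖ + ‖B‖ * ‖x‖ * (‖δ‖ * ‖y‖) := add_le_add h1 h2
    _ = _ := by ring

/-- The defect of `h` from being multiplicative. -/
noncomputable def mdef (m : E →L[ℝ] E →L[ℝ] E) (h : E →L[ℝ] E) : E →L[ℝ] E →L[ℝ] E :=
  ((m.comp h).flip.comp h).flip - (ContinuousLinearMap.compL ℝ E E E h).comp m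

theorem mdef_apply (h : E →L[ℝ] E) (x y : E) : mdef m h x y = m (h x) (h y) - h (m x y) := rfl

theorem mdef_deriv {h : ℝ → E →L[ℝ] E} {δ : E →L[ℝ] E} {t : ℝ} (hδ : δ ∈ Der m J)
    (hh : HasDerivAt h (h t * δ) t) :
    HasDerivAt (fun t => mdef m (h t)) (lam δ (mdef m (h t))) t := by
  have h1 : HasDerivAt (fun t => m.comp (h t)) (m.comp (h t * δ)) t := by
    have := (hasDerivAt_const t m).clm_comp hh
    refine this.congr_deriv ?_
    rw [ContinuousLinearMap.zero_comp, zero_add]
  have h2 : HasDerivAt (fun t => (m.comp (h t)).flip) (m.comp (h t * δ)).flip t :=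
    ((ContinuousLinearMap.flipₗᵢ ℝ E E E).toContinuousLinearEquiv.toContinuousLinearMap
      ).hasFDerivAt.comp_hasDerivAt t h1
  have h3 := h2.clm_comp hh
  have h4 := ((ContinuousLinearMap.flipₗᵢ ℝ E E E).toContinuousLinearEquiv.toContinuousLinearMap
      ).hasFDerivAt.comp_hasDerivAt t h3
  have h5 : HasDerivAt (fun t => (ContinuousLinearMap.compL ℝ E E E (h t)).comp m)
      ((ContinuousLinearMap.compL ℝ E E E (h t * δ)).comp m) t := by
    have h6 : HasDerivAt (fun t => ContinuousLinearMap.compL ℝ E E E (h t))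
        (ContinuousLinearMap.compL ℝ E E E (h t * δ)) t :=
      (ContinuousLinearMap.compL ℝ E E E).hasFDerivAt.comp_hasDerivAt t hh
    have := h6.clm_comp (hasDerivAt_const t m)
    refine this.congr_deriv ?_
    rw [ContinuousLinearMap.comp_zero, add_zero]
  refine (h4.sub h5).congr_deriv ?_
  ext x y
  show (m (h t (δ x)) (h t y) + m (h t x) (h t (δ y))) - h t (δ (m x y)) =
    (m (h t (δ x)) (h t y) - h t (m (δ x) y)) + (m (h t x) (h t (δ y)) - h t (m x (δ y)))
  rw [hδ.1, map_add]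
  abel

/-- The defect of `h` from commuting with `J`. -/
noncomputable def jdef (J h : E →L[ℝ] E) : E →L[ℝ] E := J * h - h * J

theorem jdef_deriv {h : ℝ → E →L[ℝ] E} {δ : E →L[ℝ] E} {t : ℝ} (hδ : δ ∈ Der m J)
    (hh : HasDerivAt h (h t * δ) t) :
    HasDerivAt (fun t => jdef J (h t)) (jdef J (h t) * δ) t := by
  have h1 : HasDerivAt (fun t => J * h t) (J * (h t * δ)) t := hh.const_mul J
  have h2 : HasDerivAt (fun t => h t * J) (h t * δ * J) t := hh.mul_const J
  refine (h1.sub h2).congr_deriv ?_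
  have h3 : δ * J = J * δ := ContinuousLinearMap.ext hδ.2
  rw [jdef, sub_mul, mul_assoc, mul_assoc, h3]
  noncomm_ring

variable [FiniteDimensional ℝ E]

/-- A linear selection of derivations with prescribed value at `y`. -/
theorem exists_selection (m : E →L[ℝ] E →L[ℝ] E) (J : E →L[ℝ] E) (y : E) :
    ∃ σ : E →L[ℝ] (E →L[ℝ] E), (∀ w, σ w ∈ Der m J) ∧ ∀ w ∈ val (Der m J) y, σ w y = w := by
  let ev : Der m J →ₗ[ℝ] val (Der m J) y :=
    { toFun := fun D => ⟨D.1 y, mem_val.2 ⟨D.1, D.2, rfl⟩⟩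
      map_add' := fun D F => rfl
      map_smul' := fun c D => rfl }
  have hsurj : Function.Surjective ev := by
    rintro ⟨w, hw⟩
    obtain ⟨D, hD, e⟩ := mem_val.1 hw
    exact ⟨⟨D, hD⟩, Subtype.ext e⟩
  obtain ⟨s, hs⟩ := LinearMap.exists_rightInverse_of_surjective ev (LinearMap.range_eq_top.2 hsurj)
  obtain ⟨p, hp⟩ := LinearMap.exists_leftInverse_of_injective (val (Der m J) y).subtype
    (Submodule.ker_subtype _)
  refine ⟨LinearMap.toContinuousLinearMap ((Der m J).subtype ∘ₗ s ∘ₗ p), fun w => (s (p w)).2,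
    fun w hw => ?_⟩
  have h1 : p w = ⟨w, hw⟩ := by
    have := LinearMap.congr_fun hp (⟨w, hw⟩ : val (Der m J) y)
    exact this
  show (s (p w)).1 y = w
  rw [h1]
  have := LinearMap.congr_fun hs (⟨w, hw⟩ : val (Der m J) y)
  exact congrArg Subtype.val this

/-- The flow of a local derivation stays in the orbit for small times. -/
theorem orb_eventually {X : E →L[ℝ] E} (hX : IsLocal (Der m J) X) (y : E) :
    ∀ᶠ t in 𝓝 (0 : ℝ), Orb m J y (exp (t • X) y) := by
  have : CompleteSpace E := FiniteDimensional.complete ℝ E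
  obtain ⟨σ, hσ, hσy⟩ := exists_selection m J y
  let w : (E →L[ℝ] E) → E := fun h => (Ring.inverse h * X * h) y
  let v : (E →L[ℝ] E) → (E →L[ℝ] E) := fun h => h * σ (w h)
  have hw : ContDiffAt ℝ 1 w 1 := by
    have h1 : ContDiffAt ℝ 1 (Ring.inverse : (E →L[ℝ] E) → (E →L[ℝ] E)) 1 :=
      contDiffAt_ringInverse ℝ (1 : (E →L[ℝ] E)ˣ)
    have h2 : ContDiffAt ℝ 1 (fun h : E →L[ℝ] E => Ring.inverse h * X * h) 1 :=
      (h1.mul contDiffAt_const).mul contDiffAt_id
    exact ((ContinuousLinearMap.apply ℝ E y).contDiff.contDiffAt).comp 1 h2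
  have hv : ContDiffAt ℝ 1 v 1 := contDiffAt_id.mul (σ.contDiff.contDiffAt.comp 1 hw)
  obtain ⟨h, h0, ε, hε, hd⟩ :=
    hv.exists_forall_mem_closedBall_exists_eq_forall_mem_Ioo_hasDerivAt₀ 0
  rw [zero_sub, zero_add] at hd
  have hI : Ioo (-ε) ε ∈ 𝓝 (0 : ℝ) := Ioo_mem_nhds (by linarith) hε
  have hcont : ContinuousAt h 0 := (hd 0 ⟨by linarith, hε⟩).continuousAt
  have hd' : ∀ᶠ t in 𝓝 (0 : ℝ), HasDerivAt h (h t * σ (w (h t))) t := by
    filter_upwards [hI] with t ht
    exact hd t ht
  have hunit : ∀ᶠ t in 𝓝 (0 : ℝ), IsUnit (h t) := by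
    have : {g : E →L[ℝ] E | IsUnit g} ∈ 𝓝 (h 0) := by
      rw [h0]
      exact Units.nhds (1 : (E →L[ℝ] E)ˣ)
    exact hcont this
  -- a bound for the coefficients
  have hwc : ContinuousAt (fun t => σ (w (h t))) 0 := by
    have h1 : ContinuousAt w (h 0) := by
      rw [h0]
      exact hw.continuousAt
    have h2 : ContinuousAt (fun t => w (h t)) 0 := ContinuousAt.comp (g := w) h1 hcont
    exact σ.continuous.continuousAt.comp h2
  obtain ⟨K, hK⟩ : ∃ K : NNReal, ∀ᶠ t in 𝓝 (0 : ℝ), 2 * ‖σ (w (h t))‖ ≤ K := by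
    refine ⟨⟨2 * ‖σ (w (h 0))‖ + 1, by positivity⟩, ?_⟩
    have h1 : ContinuousAt (fun t => 2 * ‖σ (w (h t))‖) 0 := hwc.norm.const_mul 2
    have h2 := h1.eventually (eventually_le_nhds (b := 2 * ‖σ (w (h 0))‖ + 1)
      (show 2 * ‖σ (w (h 0))‖ < 2 * ‖σ (w (h 0))‖ + 1 by linarith))
    exact h2
  -- `h` is multiplicative
  have hmul : ∀ᶠ t in 𝓝 (0 : ℝ), mdef m (h t) = 0 := by
    have := ODE_solution_unique_of_eventually (E := E →L[ℝ] E →L[ℝ] E)
      (v := fun t B => lam (σ (w (h t))) B)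
      (s := fun _ => univ) (K := K) (f := fun t => mdef m (h t)) (g := fun _ => 0) (t₀ := 0)
      (by
        filter_upwards [hK] with t ht
        refine LipschitzWith.lipschitzOnWith (LipschitzWith.of_dist_le_mul fun B C => ?_)
        rw [dist_eq_norm, dist_eq_norm, lam_sub]
        refine (norm_lam_le _ _).trans ?_
        gcongr)
      (by
        filter_upwards [hd'] with t ht
        exact ⟨mdef_deriv (hσ _) ht, mem_univ _⟩)
      (by
        filter_upwards with t
        refine ⟨?_, mem_univ _⟩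
        have e : lam (σ (w (h t))) (0 : E →L[ℝ] E →L[ℝ] E) = 0 := by
          ext x z
          simp [lam_apply]
        have h7 : HasDerivAt (fun _ : ℝ => (0 : E →L[ℝ] E →L[ℝ] E)) 0 t :=
          hasDerivAt_const t (0 : E →L[ℝ] E →L[ℝ] E)
        exact h7.congr_deriv e.symm)
      (by
        ext x z
        simp [mdef_apply, h0])
    exact this
  have hcomm : ∀ᶠ t in 𝓝 (0 : ℝ), jdef J (h t) = 0 := by
    have := ODE_solution_unique_of_eventually (E := E →L[ℝ] E)
      (v := fun t (B : E →L[ℝ] E) => B * σ (w (h t)))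
      (s := fun _ => univ) (K := K) (f := fun t => jdef J (h t)) (g := fun _ => 0) (t₀ := 0)
      (by
        filter_upwards [hK] with t ht
        refine LipschitzWith.lipschitzOnWith (LipschitzWith.of_dist_le_mul fun B C => ?_)
        rw [dist_eq_norm, dist_eq_norm, ← sub_mul]
        refine (norm_mul_le _ _).trans ?_
        rw [mul_comm]
        gcongr
        have := norm_nonneg (σ (w (h t)))
        linarith)
      (by
        filter_upwards [hd'] with t ht
        exact ⟨jdef_deriv (m := m) (hσ _) ht, mem_univ _⟩)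
      (by
        filter_upwards with t
        refine ⟨?_, mem_univ _⟩
        rw [zero_mul]
        exact hasDerivAt_const t _)
      (by
        rw [jdef, h0]
        simp)
    exact this
  have haut : ∀ᶠ t in 𝓝 (0 : ℝ), IsAut m J (h t) := by
    filter_upwards [hunit, hmul, hcomm] with t h1 h2 h3
    refine ⟨h1, fun x z => ?_, fun x => ?_⟩
    · have := mdef_apply (m := m) (h t) x z
      rw [h2] at this
      exact (sub_eq_zero.1 (Eq.symm this)).symm
    · have h4 : (J * h t - h t * J) x = 0 := by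
        have : jdef J (h t) x = 0 := by rw [h3]; rfl
        exact this
      have h5 : J (h t x) - h t (J x) = 0 := h4
      exact (sub_eq_zero.1 h5).symm
  -- `h t y` is the flow
  have hflow : ∀ᶠ t in 𝓝 (0 : ℝ), h t y = exp (t • X) y := by
    have := ODE_solution_unique_of_eventually (E := E) (v := fun _ x => X x)
      (s := fun _ => univ) (K := ‖X‖₊) (f := fun t => h t y) (g := fun t => exp (t • X) y)
      (t₀ := 0)
      (by
        filter_upwards with t
        exact X.lipschitz.lipschitzOnWith)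
      (by
        filter_upwards [hd', haut] with t ht hA
        refine ⟨?_, mem_univ _⟩
        have h1 := ht.clm_apply (hasDerivAt_const t y)
        refine h1.congr_deriv ?_
        rw [map_zero, add_zero]
        obtain ⟨g, g1, g2, hg⟩ := hA.exists_inv
        have hinv : Ring.inverse (h t) = g := by
          have : h t = ((⟨h t, g, g2, g1⟩ : (E →L[ℝ] E)ˣ) : E →L[ℝ] E) := rfl
          rw [this, Ring.inverse_unit]
          rfl
        have hwv : w (h t) ∈ val (Der m J) y := by
          obtain ⟨D, hD, e⟩ := hX (h t y)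
          refine mem_val.2 ⟨g * D * h t, conj_der hA g1 g2 hD, ?_⟩
          show g (D (h t y)) = Ring.inverse (h t) (X (h t y))
          rw [hinv, e]
        show h t (σ (w (h t)) y) = X (h t y)
        rw [hσy _ hwv]
        show h t (Ring.inverse (h t) (X (h t y))) = X (h t y)
        rw [hinv]
        exact congrArg (fun f : E →L[ℝ] E => f (X (h t y))) g2)
      (by
        filter_upwards with t
        refine ⟨?_, mem_univ _⟩
        have h1 := exp_smul_apply_deriv X y t
        rwa [exp_smul_comm] at h1)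
      (by simp [h0])
    exact this
  filter_upwards [haut, hflow] with t h1 h2
  exact ⟨h t, h1, h2.symm⟩

/-- **The flow of a local derivation consists of local automorphisms.** -/
theorem orb_of_isLocal {X : E →L[ℝ] E} (hX : IsLocal (Der m J) X) (x : E) (t : ℝ) :
    Orb m J x (exp (t • X) x) := by
  have : CompleteSpace E := FiniteDimensional.complete ℝ E
  have hadd : ∀ s t : ℝ, exp ((t + s) • X) x = exp (s • X) (exp (t • X) x) := by
    intro s t
    let _ : NormedAlgebra ℚ (E →L[ℝ] E) := NormedAlgebra.restrictScalars ℚ ℝ _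
    have h1 : (t + s) • X = s • X + t • X := by rw [add_comm, add_smul]
    rw [h1, exp_add_of_commute (((Commute.refl X).smul_left s).smul_right t)]
    rfl
  let S : Set ℝ := {t | Orb m J x (exp (t • X) x)}
  have hopen : IsOpen S := by
    rw [isOpen_iff_mem_nhds]
    intro t ht
    have h1 := orb_eventually hX (exp (t • X) x)
    have h2 : Tendsto (fun s : ℝ => s - t) (𝓝 t) (𝓝 0) := by
      have hc : Continuous fun s : ℝ => s - t := by fun_prop
      have := hc.tendsto t
      rwa [sub_self] at this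
    filter_upwards [h2.eventually h1] with s hs
    obtain ⟨g, hg, e⟩ := ht
    obtain ⟨h, hh, e'⟩ := hs
    refine ⟨h * g, hh.mul' hg, ?_⟩
    have h3 := hadd (s - t) t
    rw [add_sub_cancel] at h3
    rw [h3, e', e]
    rfl
  have hclosed : IsClosed S := by
    rw [← isOpen_compl_iff, isOpen_iff_mem_nhds]
    intro t ht
    have h1 := orb_eventually hX (exp (t • X) x)
    have h2 : Tendsto (fun s : ℝ => s - t) (𝓝 t) (𝓝 0) := by
      have hc : Continuous fun s : ℝ => s - t := by fun_prop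
      have := hc.tendsto t
      rwa [sub_self] at this
    filter_upwards [h2.eventually h1] with s hs
    rintro ⟨g, hg, e⟩
    apply ht
    obtain ⟨h, hh, e'⟩ := hs
    obtain ⟨h', k1, k2, hh'⟩ := hh.exists_inv
    refine ⟨h' * g, hh'.mul' hg, ?_⟩
    have h3 := hadd (s - t) t
    rw [add_sub_cancel] at h3
    show exp (t • X) x = h' (g x)
    rw [← e, h3, e']
    exact (congrArg (fun f : E →L[ℝ] E => f (exp (t • X) x)) k1).symm
  have hne : S.Nonempty := ⟨0, 1, IsAut.one, by simp⟩
  have : S = univ := IsClopen.eq_univ ⟨hclosed, hopen⟩ hne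
  exact Set.eq_univ_iff_forall.1 this t

end Pool.Agent.R697.LD
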